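import Pool.Agent.N219.HL.Homeo

/-!
# The exponential bound
-/

open Filter Topology

namespace Pool.Agent.N219.HL

variable {m : ℕ}

lemma A_bound {C α x : ℝ} (hC : 1 ≤ C) (hα : 0 < α) (hα1 : α < 1) (hx : 1 ≤ x) (m : ℕ) :
    (2 * (1 / (2 * x) + C * (1 / (2 * x)) ^ α) * x + 1) ^ m ≤
      (2 + 2 * C) ^ m * x ^ ((1 - α) * m) := by
  have hx0 : 0 < x := by linarith
  have h1 : (1 / (2 * x)) ^ α ≤ x ^ (-α) := by
    rw [Real.rpow_neg hx0.le, ← Real.inv_rpow hx0.le, one_div]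
    apply Real.rpow_le_rpow (by positivity) _ hα.le
    apply inv_anti₀ hx0
    linarith
  have h2 : x * x ^ (-α) = x ^ (1 - α) := by
    rw [sub_eq_add_neg, Real.rpow_add hx0, Real.rpow_one]
  have h3 : 1 ≤ x ^ (1 - α) := Real.one_le_rpow hx (by linarith)
  have h4 : 2 * (1 / (2 * x) + C * (1 / (2 * x)) ^ α) * x + 1 ≤ (2 + 2 * C) * x ^ (1 - α) := by
    have e : 2 * (1 / (2 * x) + C * (1 / (2 * x)) ^ α) * x + 1 =
        2 + 2 * C * ((1 / (2 * x)) ^ α * x) := by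
      field_simp
      ring
    rw [e]
    have h5 : (1 / (2 * x)) ^ α * x ≤ x ^ (1 - α) := by
      calc (1 / (2 * x)) ^ α * x ≤ x ^ (-α) * x := mul_le_mul_of_nonneg_right h1 hx0.le
        _ = x ^ (1 - α) := by rw [mul_comm, h2]
    nlinarith
  calc (2 * (1 / (2 * x) + C * (1 / (2 * x)) ^ α) * x + 1) ^ m
      ≤ ((2 + 2 * C) * x ^ (1 - α)) ^ m := pow_le_pow_left₀ (by positivity) h4 m
    _ = (2 + 2 * C) ^ m * x ^ ((1 - α) * m) := by
        rw [mul_pow, Real.rpow_mul hx0.le, Real.rpow_natCast]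

lemma B_bound {C α x : ℝ} (hC : 1 ≤ C) (hα : 0 < α) (hα1 : α < 1) (hx : 1 ≤ x) (m : ℕ) :
    0 < (1 / (C * x)) ^ (1 / α) ∧ C * ((1 / (C * x)) ^ (1 / α)) ^ α ≤ 1 / x ∧
    (2 * m * (2 * (1 / (2 * x)) / (1 / (C * x)) ^ (1 / α) + 1) ^ (m - 1)) * 4 ^ m ≤
      (2 * m * (C ^ (1 / α) + 1) ^ (m - 1) * 4 ^ m) * x ^ ((1 / α - 1) * ((m - 1 : ℕ) : ℝ)) := by
  have hx0 : 0 < x := by linarith
  have hC0 : 0 < C := by linarith
  refine ⟨by positivity, ?_, ?_⟩
  · rw [← Real.rpow_mul (by positivity), one_div_mul_cancel hα.ne', Real.rpow_one]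
    apply le_of_eq
    field_simp
  · have e : 2 * (1 / (2 * x)) / (1 / (C * x)) ^ (1 / α) = C ^ (1 / α) * x ^ (1 / α - 1) := by
      rw [one_div (C * x), Real.inv_rpow (by positivity), Real.mul_rpow hC0.le hx0.le,
        Real.rpow_sub hx0, Real.rpow_one]
      field_simp
    rw [e]
    have h1 : 1 ≤ x ^ (1 / α - 1) := by
      apply Real.one_le_rpow hx
      rw [sub_nonneg, le_div_iff₀ hα]
      linarith
    have h2 : C ^ (1 / α) * x ^ (1 / α - 1) + 1 ≤ (C ^ (1 / α) + 1) * x ^ (1 / α - 1) := by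
      nlinarith
    have h3 : (C ^ (1 / α) * x ^ (1 / α - 1) + 1) ^ (m - 1) ≤
        (C ^ (1 / α) + 1) ^ (m - 1) * x ^ ((1 / α - 1) * ((m - 1 : ℕ) : ℝ)) := by
      calc (C ^ (1 / α) * x ^ (1 / α - 1) + 1) ^ (m - 1)
          ≤ ((C ^ (1 / α) + 1) * x ^ (1 / α - 1)) ^ (m - 1) :=
            pow_le_pow_left₀ (by positivity) h2 _
        _ = _ := by rw [mul_pow, Real.rpow_mul hx0.le, Real.rpow_natCast]
    calc (2 * m * (C ^ (1 / α) * x ^ (1 / α - 1) + 1) ^ (m - 1)) * 4 ^ m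
        ≤ (2 * m * ((C ^ (1 / α) + 1) ^ (m - 1) * x ^ ((1 / α - 1) * ((m - 1 : ℕ) : ℝ)))) * 4 ^ m := by
          gcongr
      _ = _ := by ring

/-- The uniform bound for Hölder homeomorphisms. -/
lemma homeo_bound (hm : 0 < m) {C α : ℝ} (hC : 1 ≤ C) (hα : 0 < α) (hα1 : α < 1) (k : ℕ) {Θ : ℝ}
    (hΘ1 : (m : ℝ) ≤ Θ)
    (hΘ2 : k * ((1 - α) * m) + (1 / α - 1) * ((m - 1 : ℕ) : ℝ) ≤ Θ) :
    ∃ K : ℝ, 0 ≤ K ∧ ∀ (S : Torus m ≃ₜ Torus m),
      (∀ x y, dist (S x) (S y) ≤ C * dist x y ^ α) → ∀ (M : ℕ), 0 < M → ∀ (n : ℕ) (ε : ℝ),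
      1 / (M : ℝ) ≤ ε → ∀ E : Finset (Torus m), IsSep S (n + 1) ε E →
      (E.card : ℝ) ≤ Real.exp (m * Real.log M + k * (K + (1 - α) * m * Real.log M) +
        (n : ℝ) / (k + 1) * (K + Θ * Real.log M)) := by
  set KA : ℝ := (2 + 2 * C) ^ m with hKA
  set KB : ℝ := 2 * m * (C ^ (1 / α) + 1) ^ (m - 1) * 4 ^ m with hKB
  set KP : ℝ := (2 ^ m) ^ (k + 1) + (k + 1) * KA ^ k * KB with hKP
  have hKA1 : 1 ≤ KA := one_le_pow₀ (by linarith)
  have hC0 : 0 < C := by linarith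
  have hKB0 : 0 ≤ KB := by positivity
  have hKP1 : 1 ≤ KP := by
    have h1 : (1 : ℝ) ≤ (2 ^ m) ^ (k + 1) := one_le_pow₀ (one_le_pow₀ (by norm_num))
    have h2 : 0 ≤ (k + 1) * KA ^ k * KB := by positivity
    linarith
  have hlA : 0 ≤ Real.log KA := Real.log_nonneg hKA1
  have hlP : 0 ≤ Real.log KP := Real.log_nonneg hKP1
  refine ⟨Real.log KA + Real.log KP, by positivity, ?_⟩
  intro S hS M hM n ε hε E hE
  have hx : (1 : ℝ) ≤ M := by exact_mod_cast hM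
  have hx0 : (0 : ℝ) < M := by linarith
  have hlx : 0 ≤ Real.log M := Real.log_nonneg hx
  set x : ℝ := (M : ℝ) with hxdef
  obtain ⟨hρ, hρM, hB⟩ := B_bound hC hα hα1 hx m
  have hA := A_bound hC hα hα1 hx m
  set a : ℝ := (1 - α) * m with ha
  set b : ℝ := (1 / α - 1) * ((m - 1 : ℕ) : ℝ) with hb
  have ha0 : 0 ≤ a := mul_nonneg (by linarith) (by positivity)
  set r := n % (k + 1) with hr
  set q := n / (k + 1) with hq
  have hn : n = r + q * (k + 1) := by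
    rw [hr, hq, mul_comm]
    exact (Nat.mod_add_div n (k + 1)).symm
  have hE' : IsSep S (r + q * (k + 1) + 1) ε E := by rw [← hn]; exact hE
  have hraw := raw_bound hm S hα hC0.le hS hM hρ hρM k q r hε E hE' hA hB
  refine hraw.trans ?_
  have hP : (2 ^ m) ^ (k + 1) * x ^ m + (k + 1) * (KA * x ^ a) ^ k * (KB * x ^ b) ≤
      KP * x ^ Θ := by
    have h1 : x ^ m ≤ x ^ Θ := by
      rw [← Real.rpow_natCast]
      exact Real.rpow_le_rpow_of_exponent_le hx hΘ1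
    have h2 : (KA * x ^ a) ^ k * (KB * x ^ b) ≤ KA ^ k * KB * x ^ Θ := by
      have e : (KA * x ^ a) ^ k * (KB * x ^ b) = KA ^ k * KB * x ^ (k * a + b) := by
        rw [mul_pow, Real.rpow_add hx0, mul_comm (k : ℝ) a, Real.rpow_mul hx0.le a k,
          Real.rpow_natCast (x ^ a) k]
        ring
      rw [e]
      apply mul_le_mul_of_nonneg_left _ (by positivity)
      exact Real.rpow_le_rpow_of_exponent_le hx hΘ2
    calc (2 ^ m) ^ (k + 1) * x ^ m + (k + 1) * (KA * x ^ a) ^ k * (KB * x ^ b)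
        = (2 ^ m) ^ (k + 1) * x ^ m + (k + 1) * ((KA * x ^ a) ^ k * (KB * x ^ b)) := by ring
      _ ≤ (2 ^ m) ^ (k + 1) * x ^ Θ + (k + 1) * (KA ^ k * KB * x ^ Θ) := by gcongr
      _ = KP * x ^ Θ := by rw [hKP]; ring
  have e1 : x ^ m = Real.exp (m * Real.log x) := by
    rw [mul_comm, Real.exp_mul, Real.exp_log hx0, Real.rpow_natCast]
  have e2 : KP * x ^ Θ = Real.exp (Real.log KP + Θ * Real.log x) := by
    rw [Real.exp_add, Real.exp_log (by linarith), mul_comm Θ, Real.exp_mul, Real.exp_log hx0]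
  have e3 : KA * x ^ a = Real.exp (Real.log KA + a * Real.log x) := by
    rw [Real.exp_add, Real.exp_log (by linarith), mul_comm a, Real.exp_mul, Real.exp_log hx0]
  have hΘ0 : 0 ≤ Θ := le_trans (by positivity) hΘ1
  have hqn : (q : ℝ) ≤ (n : ℝ) / (k + 1) := by
    rw [le_div_iff₀ (by positivity)]
    have : q * (k + 1) ≤ n := by omega
    exact_mod_cast this
  have hrk : (r : ℝ) ≤ k := by
    have : r < k + 1 := Nat.mod_lt _ (Nat.succ_pos _)
    exact_mod_cast Nat.lt_succ_iff.mp this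
  calc x ^ m * (((2 ^ m) ^ (k + 1) * x ^ m + (k + 1) * (KA * x ^ a) ^ k * (KB * x ^ b)) ^ q *
        (KA * x ^ a) ^ r)
      ≤ x ^ m * ((KP * x ^ Θ) ^ q * (KA * x ^ a) ^ r) := by gcongr
    _ = Real.exp (m * Real.log x + r * (Real.log KA + a * Real.log x) +
          q * (Real.log KP + Θ * Real.log x)) := by
        rw [e1, e2, e3, ← Real.exp_nat_mul, ← Real.exp_nat_mul, ← Real.exp_add, ← Real.exp_add]
        congr 1
        ring
    _ ≤ _ := by
        apply Real.exp_le_exp.mpr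
        have h1 : (r : ℝ) * (Real.log KA + a * Real.log x) ≤
            k * (Real.log KA + Real.log KP + a * Real.log x) := by
          apply mul_le_mul hrk _ (by positivity) (by positivity)
          linarith
        have h2 : (q : ℝ) * (Real.log KP + Θ * Real.log x) ≤
            (n : ℝ) / (k + 1) * (Real.log KA + Real.log KP + Θ * Real.log x) := by
          apply mul_le_mul hqn _ (by positivity) (by positivity)
          linarith
        linarith

end Pool.Agent.N219.HL
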