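import Pool.Agent.N219.HL.Defs

/-!
# Counting paths of a transition relation and separated sets
-/

open Filter Topology

namespace Pool.Agent.N219.HL

open Classical in
/-- the number of `n`-step paths of the relation `R` starting at `i` -/
noncomputable def pc {ι : Type*} [Fintype ι] (R : ι → ι → Prop) : ℕ → ι → ℝ
  | 0, _ => 1
  | n + 1, i => ∑ j ∈ Finset.univ.filter (fun j => R i j), pc R n j

open Classical in
lemma pc_succ {ι : Type*} [Fintype ι] (R : ι → ι → Prop) (n : ℕ) (i : ι) :
    pc R (n + 1) i = ∑ j ∈ Finset.univ.filter (fun j => R i j), pc R n j := rfl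

variable {ι : Type*} [Fintype ι]

lemma pc_nonneg (R : ι → ι → Prop) (n : ℕ) (i : ι) : 0 ≤ pc R n i := by
  induction n generalizing i with
  | zero => simp [pc]
  | succ n ih => rw [pc_succ]; exact Finset.sum_nonneg fun j _ => ih j

open Classical in
lemma pc_le_pow (R : ι → ι → Prop) {A : ℝ} (hA0 : 0 ≤ A)
    (hA : ∀ i, ((Finset.univ.filter (fun j => R i j)).card : ℝ) ≤ A) (n : ℕ) (i : ι) :
    pc R n i ≤ A ^ n := by
  induction n generalizing i with
  | zero => simp [pc]
  | succ n ih =>
    rw [pc_succ]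
    calc ∑ j ∈ Finset.univ.filter (fun j => R i j), pc R n j
        ≤ ∑ j ∈ Finset.univ.filter (fun j => R i j), A ^ n := Finset.sum_le_sum fun j _ => ih j
      _ = (Finset.univ.filter (fun j => R i j)).card * A ^ n := by
          rw [Finset.sum_const, nsmul_eq_mul]
      _ ≤ A * A ^ n := mul_le_mul_of_nonneg_right (hA i) (by positivity)
      _ = A ^ (n + 1) := by ring

open Classical in
lemma pc_split (R Rb Rc : ι → ι → Prop) (hR : ∀ i j, R i j → Rb i j ∨ Rc i j) {A B : ℝ}
    (hA0 : 0 ≤ A) (hB0 : 0 ≤ B)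
    (hA : ∀ i, ((Finset.univ.filter (fun j => R i j)).card : ℝ) ≤ A)
    (hAc : ∀ i, ((Finset.univ.filter (fun j => Rc i j)).card : ℝ) ≤ A)
    (hB : ∀ i, ((Finset.univ.filter (fun j => Rb i j)).card : ℝ) ≤ B) (k : ℕ) (i : ι) :
    pc R (k + 1) i ≤ pc Rc (k + 1) i + (k + 1) * A ^ k * B := by
  have hsub : ∀ i, Finset.univ.filter (fun j => R i j) ⊆
      Finset.univ.filter (fun j => Rb i j) ∪ Finset.univ.filter (fun j => Rc i j) := by
    intro i j hj
    rcases hR i j (Finset.mem_filter.mp hj).2 with h | h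
    · exact Finset.mem_union_left _ (Finset.mem_filter.mpr ⟨Finset.mem_univ _, h⟩)
    · exact Finset.mem_union_right _ (Finset.mem_filter.mpr ⟨Finset.mem_univ _, h⟩)
  have hsum : ∀ (f : ι → ℝ), (∀ j, 0 ≤ f j) → ∀ i,
      ∑ j ∈ Finset.univ.filter (fun j => R i j), f j ≤
      ∑ j ∈ Finset.univ.filter (fun j => Rb i j), f j +
        ∑ j ∈ Finset.univ.filter (fun j => Rc i j), f j := by
    intro f hf i
    calc ∑ j ∈ Finset.univ.filter (fun j => R i j), f j
        ≤ ∑ j ∈ Finset.univ.filter (fun j => Rb i j) ∪ Finset.univ.filter (fun j => Rc i j), f j :=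
          Finset.sum_le_sum_of_subset_of_nonneg (hsub i) fun j _ _ => hf j
      _ ≤ _ := by
          rw [← Finset.sum_union_inter]
          have : 0 ≤ ∑ j ∈ Finset.univ.filter (fun j => Rb i j) ∩
              Finset.univ.filter (fun j => Rc i j), f j := Finset.sum_nonneg fun j _ => hf j
          linarith
  have hb : ∀ (k : ℕ) (i : ι), ∑ j ∈ Finset.univ.filter (fun j => Rb i j), pc R k j ≤
      A ^ k * B := by
    intro k i
    calc ∑ j ∈ Finset.univ.filter (fun j => Rb i j), pc R k j
        ≤ ∑ j ∈ Finset.univ.filter (fun j => Rb i j), A ^ k :=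
          Finset.sum_le_sum fun j _ => pc_le_pow R hA0 hA k j
      _ = (Finset.univ.filter (fun j => Rb i j)).card * A ^ k := by
          rw [Finset.sum_const, nsmul_eq_mul]
      _ ≤ B * A ^ k := mul_le_mul_of_nonneg_right (hB i) (by positivity)
      _ = A ^ k * B := by ring
  induction k generalizing i with
  | zero =>
    rw [pc_succ R]
    refine (hsum _ (pc_nonneg R 0) i).trans ?_
    have h1 := hb 0 i
    have h2 : ∑ j ∈ Finset.univ.filter (fun j => Rc i j), pc R 0 j = pc Rc (0 + 1) i := by
      rw [pc_succ]; rfl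
    rw [h2]
    norm_num at h1 ⊢
    linarith
  | succ k ih =>
    rw [pc_succ R]
    refine (hsum _ (pc_nonneg R (k + 1)) i).trans ?_
    have h1 := hb (k + 1) i
    have h2 : ∑ j ∈ Finset.univ.filter (fun j => Rc i j), pc R (k + 1) j ≤
        pc Rc (k + 1 + 1) i + (k + 1) * A ^ (k + 1) * B := by
      calc ∑ j ∈ Finset.univ.filter (fun j => Rc i j), pc R (k + 1) j
          ≤ ∑ j ∈ Finset.univ.filter (fun j => Rc i j),
              (pc Rc (k + 1) j + (k + 1) * A ^ k * B) := Finset.sum_le_sum fun j _ => ih j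
        _ = pc Rc (k + 1 + 1) i +
              (Finset.univ.filter (fun j => Rc i j)).card * ((k + 1) * A ^ k * B) := by
            rw [Finset.sum_add_distrib, Finset.sum_const, nsmul_eq_mul, pc_succ Rc (k + 1)]
        _ ≤ pc Rc (k + 1 + 1) i + A * ((k + 1) * A ^ k * B) := by
            have := mul_le_mul_of_nonneg_right (hAc i)
              (show (0 : ℝ) ≤ (k + 1) * A ^ k * B by positivity)
            linarith
        _ = pc Rc (k + 1 + 1) i + (k + 1) * A ^ (k + 1) * B := by ring
    push_cast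
    nlinarith

open Classical in
lemma sum_pc_le (Rc : ι → ι → Prop) {W : ℝ} (hW0 : 0 ≤ W)
    (hW : ∀ j, ((Finset.univ.filter (fun i => Rc i j)).card : ℝ) ≤ W) (k : ℕ) :
    ∑ i, pc Rc k i ≤ W ^ k * Fintype.card ι := by
  induction k with
  | zero => simp [pc]
  | succ k ih =>
    calc ∑ i, pc Rc (k + 1) i = ∑ i, ∑ j, if Rc i j then pc Rc k j else 0 := by
          apply Finset.sum_congr rfl
          intro i _
          rw [pc_succ, Finset.sum_filter]
      _ = ∑ j, ∑ i, if Rc i j then pc Rc k j else 0 := Finset.sum_comm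
      _ = ∑ j, (Finset.univ.filter (fun i => Rc i j)).card * pc Rc k j := by
          apply Finset.sum_congr rfl
          intro j _
          rw [← Finset.sum_filter, Finset.sum_const, nsmul_eq_mul]
      _ ≤ ∑ j, W * pc Rc k j := Finset.sum_le_sum fun j _ =>
          mul_le_mul_of_nonneg_right (hW j) (pc_nonneg _ _ _)
      _ = W * ∑ j, pc Rc k j := by rw [Finset.mul_sum]
      _ ≤ W * (W ^ k * Fintype.card ι) := mul_le_mul_of_nonneg_left ih hW0
      _ = W ^ (k + 1) * Fintype.card ι := by ring

open Classical in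
/-- the block bound -/
lemma pc_block (R Rb Rc : ι → ι → Prop) (hR : ∀ i j, R i j → Rb i j ∨ Rc i j) {A B W : ℝ}
    (hA0 : 0 ≤ A) (hB0 : 0 ≤ B) (hW0 : 0 ≤ W)
    (hA : ∀ i, ((Finset.univ.filter (fun j => R i j)).card : ℝ) ≤ A)
    (hAc : ∀ i, ((Finset.univ.filter (fun j => Rc i j)).card : ℝ) ≤ A)
    (hB : ∀ i, ((Finset.univ.filter (fun j => Rb i j)).card : ℝ) ≤ B)
    (hW : ∀ j, ((Finset.univ.filter (fun i => Rc i j)).card : ℝ) ≤ W) (k : ℕ) (i : ι) :
    pc R (k + 1) i ≤ W ^ (k + 1) * Fintype.card ι + (k + 1) * A ^ k * B := by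
  have h1 := pc_split R Rb Rc hR hA0 hB0 hA hAc hB k i
  have h2 := sum_pc_le Rc hW0 hW (k + 1)
  have h3 : pc Rc (k + 1) i ≤ ∑ i, pc Rc (k + 1) i :=
    Finset.single_le_sum (f := fun i => pc Rc (k + 1) i) (fun j _ => pc_nonneg _ _ _)
      (Finset.mem_univ i)
  linarith

lemma pc_add (R : ι → ι → Prop) {P : ℝ} (L : ℕ) (hP : ∀ i, pc R L i ≤ P) (n : ℕ) (i : ι) :
    pc R (n + L) i ≤ P * pc R n i := by
  classical
  induction n generalizing i with
  | zero => simpa [pc] using hP i
  | succ n ih =>
    have e : n + 1 + L = (n + L) + 1 := by ring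
    rw [e, pc_succ, pc_succ, Finset.mul_sum]
    exact Finset.sum_le_sum fun j _ => ih j

lemma pc_mul (R : ι → ι → Prop) {P : ℝ} (hP0 : 0 ≤ P) (L : ℕ) (hP : ∀ i, pc R L i ≤ P)
    (q r : ℕ) (i : ι) : pc R (r + q * L) i ≤ P ^ q * pc R r i := by
  induction q with
  | zero => simp
  | succ q ih =>
    have e : r + (q + 1) * L = (r + q * L) + L := by ring
    rw [e]
    refine (pc_add R L hP _ i).trans ?_
    calc P * pc R (r + q * L) i ≤ P * (P ^ q * pc R r i) := mul_le_mul_of_nonneg_left ih hP0
      _ = P ^ (q + 1) * pc R r i := by ring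

open Classical in
/-- separated sets are bounded by path counts: the part in one cell -/
lemma sep_cell {X : Type*} [MetricSpace X] (T : X → X) {ε : ℝ} (c : X → ι)
    (hc : ∀ x y, c x = c y → dist x y ≤ ε) (R : ι → ι → Prop) (hR : ∀ x, R (c x) (c (T x)))
    (n : ℕ) : ∀ (E : Finset X) (i : ι), (∀ x ∈ E, c x = i) → IsSep T (n + 1) ε E →
      (E.card : ℝ) ≤ pc R n i := by
  induction n with
  | zero =>
    intro E i hE hs
    have : E.card ≤ 1 := by
      rw [Finset.card_le_one]
      intro x hx y hy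
      by_contra hne
      obtain ⟨k, hk, hd⟩ := hs x hx y hy hne
      have hk0 : k = 0 := by omega
      subst hk0
      have := hc x y ((hE x hx).trans (hE y hy).symm)
      simp only [Function.iterate_zero, id_eq] at hd
      linarith
    show (E.card : ℝ) ≤ 1
    exact_mod_cast this
  | succ n ih =>
    intro E i hE hs
    have hs' : ∀ x ∈ E, ∀ y ∈ E, x ≠ y →
        ∃ k < n + 1, ε < dist (T^[k] (T x)) (T^[k] (T y)) := by
      intro x hx y hy hne
      obtain ⟨k, hk, hd⟩ := hs x hx y hy hne
      rcases Nat.eq_zero_or_pos k with rfl | hpos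
      · exfalso
        have := hc x y ((hE x hx).trans (hE y hy).symm)
        simp only [Function.iterate_zero, id_eq] at hd
        linarith
      · refine ⟨k - 1, by omega, ?_⟩
        have e : k = (k - 1) + 1 := by omega
        rw [e, Function.iterate_succ_apply, Function.iterate_succ_apply] at hd
        exact hd
    have hε : 0 ≤ ε ∨ E = ∅ := by
      rcases E.eq_empty_or_nonempty with h | ⟨x, hx⟩
      · exact Or.inr h
      · left; have := hc x x rfl; simpa using this
    rcases hε with hε | hempty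
    swap
    · rw [hempty]; simp [pc_nonneg]
    have hinj : Set.InjOn T (E : Set X) := by
      intro x hx y hy hxy
      by_contra hne
      obtain ⟨k, hk, hd⟩ := hs' x hx y hy hne
      rw [hxy, dist_self] at hd
      linarith
    have hcard : E.card = (E.image T).card := (Finset.card_image_of_injOn hinj).symm
    have hfib : (E.image T).card = ∑ j ∈ Finset.univ.filter (fun j => R i j),
        ((E.image T).filter fun y => c y = j).card := by
      apply Finset.card_eq_sum_card_fiberwise
      intro y hy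
      obtain ⟨x, hx, rfl⟩ := Finset.mem_image.mp (Finset.mem_coe.mp hy)
      refine Finset.mem_coe.mpr (Finset.mem_filter.mpr ⟨Finset.mem_univ _, ?_⟩)
      have := hR x
      rwa [hE x hx] at this
    rw [hcard, hfib, pc_succ]
    push_cast
    apply Finset.sum_le_sum
    intro j _
    apply ih
    · intro y hy
      exact (Finset.mem_filter.mp hy).2
    · intro y hy z hz hne
      obtain ⟨x, hx, rfl⟩ := Finset.mem_image.mp (Finset.mem_filter.mp hy).1
      obtain ⟨w, hw, rfl⟩ := Finset.mem_image.mp (Finset.mem_filter.mp hz).1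
      exact hs' x hx w hw fun h => hne (by rw [h])

lemma sep_le {X : Type*} [MetricSpace X] (T : X → X) {ε : ℝ} (c : X → ι)
    (hc : ∀ x y, c x = c y → dist x y ≤ ε) (R : ι → ι → Prop) (hR : ∀ x, R (c x) (c (T x)))
    (n : ℕ) (E : Finset X) (hE : IsSep T (n + 1) ε E) :
    (E.card : ℝ) ≤ ∑ i, pc R n i := by
  classical
  have hfib : E.card = ∑ j : ι, (E.filter fun y => c y = j).card :=
    Finset.card_eq_sum_card_fiberwise fun y _ => Finset.mem_coe.mpr (Finset.mem_univ _)
  rw [hfib]
  push_cast
  apply Finset.sum_le_sum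
  intro j _
  apply sep_cell T c hc R hR
  · intro y hy
    exact (Finset.mem_filter.mp hy).2
  · intro y hy z hz hne
    exact hE y (Finset.mem_filter.mp hy).1 z (Finset.mem_filter.mp hz).1 hne

end Pool.Agent.N219.HL
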