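import Mathlib

/-!
# Hölder limits of bi-Lipschitz homeomorphisms of the torus: definitions

The manifold is the torus `𝕋^m = (ℝ/ℤ)^m` with the sup metric (which is bi-Lipschitz equivalent to
the flat Riemannian distance), embedded in `ℂ^m = ℝ^{2m}` by
`(x_1, …, x_m) ↦ (exp(2πi x_1), …, exp(2πi x_m))`.
-/

open Filter Topology
open scoped ENNReal NNReal

namespace Pool.Agent.N219.HL

/-- The `m`-dimensional torus with the sup metric. -/
abbrev Torus (m : ℕ) := Fin m → UnitAddCircle

/-- `E` is `(n, ε)`-separated for `T`: for distinct `x, y ∈ E` there is `k < n` with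
`d(T^k x, T^k y) > ε`. -/
def IsSep {X : Type*} [MetricSpace X] (T : X → X) (n : ℕ) (ε : ℝ) (E : Finset X) : Prop :=
  ∀ x ∈ E, ∀ y ∈ E, x ≠ y → ∃ k < n, ε < dist (T^[k] x) (T^[k] y)

/-- `s(n, ε)`: the supremum of the cardinalities of `(n, ε)`-separated sets. -/
noncomputable def sNum {X : Type*} [MetricSpace X] (T : X → X) (n : ℕ) (ε : ℝ) : ℝ≥0∞ :=
  ⨆ (E : Finset X) (_ : IsSep T n ε E), (E.card : ℝ≥0∞)

/-- `h(T, ε) = limsup_n (1/n) log s(n, ε)`. -/
noncomputable def hEps {X : Type*} [MetricSpace X] (T : X → X) (ε : ℝ) : EReal :=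
  limsup (fun n : ℕ => ENNReal.log (sNum T n ε) / (((n : ℝ)) : EReal)) atTop

/-- The upper metric mean dimension `limsup_{ε → 0} h(T, ε) / |log ε|`. -/
noncomputable def upperMdim {X : Type*} [MetricSpace X] (T : X → X) : EReal :=
  limsup (fun ε : ℝ => hEps T ε / ((|Real.log ε| : ℝ) : EReal)) (𝓝[>] 0)

/-- The standard smooth embedding of the torus in `ℂ^m = ℝ^{2m}`. -/
noncomputable def emb {m : ℕ} (x : Torus m) : EuclideanSpace ℂ (Fin m) :=
  WithLp.toLp 2 fun i => (AddCircle.toCircle (x i) : ℂ)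

/-- The `α`-Hölder maps of the torus. -/
def HMap (m : ℕ) (α : ℝ≥0) : Type := {T : Torus m → Torus m // MemHolder α T}

/-- The difference `T - S` of two maps viewed as maps into `ℂ^m`. -/
noncomputable def diffMap {m : ℕ} {α : ℝ≥0} (T S : HMap m α) :
    Torus m → EuclideanSpace ℂ (Fin m) := fun x => emb (T.1 x) - emb (S.1 x)

lemma emb_injective {m : ℕ} : Function.Injective (emb (m := m)) := by
  intro x y hxy
  funext i
  have h : (AddCircle.toCircle (x i) : ℂ) = (AddCircle.toCircle (y i) : ℂ) := by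
    have := congrArg (fun v : EuclideanSpace ℂ (Fin m) => v i) hxy
    simpa [emb] using this
  exact AddCircle.injective_toCircle one_ne_zero (Subtype.ext h)

lemma diffMap_swap {m : ℕ} {α : ℝ≥0} (T S : HMap m α) : diffMap S T = -diffMap T S := by
  funext x
  simp [diffMap]

lemma eHolderNorm_neg' {X Y : Type*} [MetricSpace X] [NormedAddCommGroup Y] (α : ℝ≥0)
    (f : X → Y) : eHolderNorm α (-f) = eHolderNorm α f := by
  unfold eHolderNorm HolderWith
  simp only [Pi.neg_apply, edist_neg_neg]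

/-- The metric `d_α(T, S) = ‖T - S‖_∞ + sup_{x ≠ y} |(T - S)(x) - (T - S)(y)| / d(x, y)^α`
(with values in `[0, ∞]`; it is finite on Hölder maps). -/
noncomputable instance instEMetricHMap {m : ℕ} {α : ℝ≥0} : EMetricSpace (HMap m α) where
  edist T S := (⨆ x, ‖diffMap T S x‖ₑ) + eHolderNorm α (diffMap T S)
  edist_self T := by
    have h : diffMap T T = 0 := by funext x; simp [diffMap]
    rw [h]
    simp
  edist_comm T S := by
    rw [diffMap_swap T S, eHolderNorm_neg']
    simp
  edist_triangle T S U := by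
    have h : diffMap T U = diffMap T S + diffMap S U := by funext x; simp [diffMap]
    rw [h]
    have h1 : (⨆ x, ‖(diffMap T S + diffMap S U) x‖ₑ) ≤
        (⨆ x, ‖diffMap T S x‖ₑ) + ⨆ x, ‖diffMap S U x‖ₑ := by
      refine iSup_le fun x => (enorm_add_le _ _).trans (add_le_add ?_ ?_)
      · exact le_iSup (fun x => ‖diffMap T S x‖ₑ) x
      · exact le_iSup (fun x => ‖diffMap S U x‖ₑ) x
    have h2 := eHolderNorm_add_le (r := α) (f := diffMap T S) (g := diffMap S U)
    calc _ ≤ ((⨆ x, ‖diffMap T S x‖ₑ) + ⨆ x, ‖diffMap S U x‖ₑ) +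
          (eHolderNorm α (diffMap T S) + eHolderNorm α (diffMap S U)) := add_le_add h1 h2
      _ = _ := by ring
  eq_of_edist_eq_zero {T S} h := by
    have h0 : (⨆ x, ‖diffMap T S x‖ₑ) = 0 := (add_eq_zero.mp h).1
    apply Subtype.ext
    funext x
    apply emb_injective
    have : ‖diffMap T S x‖ₑ ≤ 0 := h0 ▸ le_iSup (fun x => ‖diffMap T S x‖ₑ) x
    exact sub_eq_zero.mp (enorm_eq_zero.mp (le_antisymm this zero_le))

/-- `T` is a bi-Lipschitz homeomorphism. -/
def IsBiLipHomeo {X : Type*} [MetricSpace X] (T : X → X) : Prop :=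
  Function.Bijective T ∧ (∃ K, LipschitzWith K T) ∧ ∃ K, AntilipschitzWith K T

/-- `L_α`: the closure of the bi-Lipschitz homeomorphisms in the space of `α`-Hölder maps. -/
def Lalpha (m : ℕ) (α : ℝ≥0) : Set (HMap m α) := closure {T | IsBiLipHomeo T.1}

end Pool.Agent.N219.HL
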