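import Pool.Agent.N219.HL.Limit

/-!
# Completeness of the space of Hölder maps and the final statement
-/

open Filter Topology
open scoped ENNReal NNReal

namespace Pool.Agent.N219.HL

variable {m : ℕ} {α : ℝ≥0}

lemma holder_of_dist {X Y : Type*} [MetricSpace X] [MetricSpace Y] {f : X → Y} {C : ℝ≥0}
    (h : ∀ x y, dist (f x) (f y) ≤ C * dist x y ^ (α : ℝ)) : HolderWith C α f := fun x y => by
  rw [edist_dist, edist_dist, ENNReal.ofReal_rpow_of_nonneg dist_nonneg α.coe_nonneg,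
    ← ENNReal.ofReal_coe_nnreal, ← ENNReal.ofReal_mul C.coe_nonneg]
  exact ENNReal.ofReal_le_ofReal (h x y)

instance completeHMap : CompleteSpace (HMap m α) := by
  refine EMetric.complete_of_cauchySeq_tendsto fun u hu => ?_
  rw [EMetric.cauchySeq_iff] at hu
  -- pointwise limits
  have hpt : ∀ x, ∃ y, Tendsto (fun n => (u n).1 x) atTop (𝓝 y) := by
    intro x
    apply cauchySeq_tendsto_of_complete
    rw [Metric.cauchySeq_iff]
    intro ε hε
    obtain ⟨N, hN⟩ := hu (ENNReal.ofReal (ε / 2)) (ENNReal.ofReal_pos.mpr (by positivity))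
    refine ⟨N, fun i hi j hj => ?_⟩
    have h1 := diff_le_of_edist (by positivity) (hN i hi j hj).le x
    have h2 := dist_le_emb ((u i).1 x) ((u j).1 x)
    linarith
  choose T hT using hpt
  obtain ⟨K, hK⟩ := emb_lip (m := m)
  have hTe : ∀ x, Tendsto (fun n => emb ((u n).1 x)) atTop (𝓝 (emb (T x))) := fun x =>
    (hK.continuous.tendsto (T x)).comp (hT x)
  -- estimates for the limit
  have hlim1 : ∀ (δ : ℝ≥0) (N n : ℕ), (∀ j, N ≤ j → edist (u n) (u j) ≤ δ) →
      HolderWith δ α (fun x => emb ((u n).1 x) - emb (T x)) := by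
    intro δ N n h
    apply holder_of_dist
    intro x y
    have ht : Tendsto (fun j => dist (emb ((u n).1 x) - emb ((u j).1 x))
        (emb ((u n).1 y) - emb ((u j).1 y))) atTop
        (𝓝 (dist (emb ((u n).1 x) - emb (T x)) (emb ((u n).1 y) - emb (T y)))) :=
      (tendsto_const_nhds.sub (hTe x)).dist (tendsto_const_nhds.sub (hTe y))
    refine le_of_tendsto ht ?_
    filter_upwards [eventually_ge_atTop N] with j hj
    exact (holder_of_edist (h j hj)).dist_le x y
  have hlim2 : ∀ (δ : ℝ≥0) (N n : ℕ), (∀ j, N ≤ j → edist (u n) (u j) ≤ δ) →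
      ∀ x, ‖emb ((u n).1 x) - emb (T x)‖ₑ ≤ δ := by
    intro δ N n h x
    have ht : Tendsto (fun j => ‖emb ((u n).1 x) - emb ((u j).1 x)‖ₑ) atTop
        (𝓝 (‖emb ((u n).1 x) - emb (T x)‖ₑ)) :=
      (continuous_enorm.tendsto _).comp (tendsto_const_nhds.sub (hTe x))
    refine le_of_tendsto ht ?_
    filter_upwards [eventually_ge_atTop N] with j hj
    exact (diff_le_edist (u n) (u j) x).trans (h j hj)
  -- the limit is Hölder
  have hTH : MemHolder α T := by
    obtain ⟨N, hN⟩ := hu 1 one_pos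
    have h1 := hlim1 1 N N fun j hj => by exact_mod_cast (hN N le_rfl j hj).le
    obtain ⟨C, hC⟩ := (u N).2
    refine ⟨K * C + 1, holder_of_dist fun x y => ?_⟩
    refine (dist_le_emb _ _).trans ?_
    have e : emb (T x) - emb (T y) = (emb ((u N).1 x) - emb ((u N).1 y)) -
        ((emb ((u N).1 x) - emb (T x)) - (emb ((u N).1 y) - emb (T y))) := by abel
    rw [e]
    refine (norm_sub_le _ _).trans ?_
    have h2 : ‖emb ((u N).1 x) - emb ((u N).1 y)‖ ≤ K * (C * dist x y ^ (α : ℝ)) := by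
      rw [← dist_eq_norm]
      refine (hK.dist_le_mul _ _).trans ?_
      gcongr
      exact hC.dist_le x y
    have h3 := h1.dist_le x y
    rw [dist_eq_norm] at h3
    push_cast at h3 ⊢
    nlinarith
  let T' : HMap m α := ⟨T, hTH⟩
  refine ⟨T', ?_⟩
  rw [EMetric.tendsto_atTop]
  intro ε hε
  obtain ⟨δ, hδ0, hδ⟩ : ∃ δ : ℝ≥0, 0 < δ ∧ (δ : ℝ≥0∞) + δ < ε := by
    rcases eq_or_ne ε ⊤ with rfl | hne
    · exact ⟨1, one_pos, by norm_num⟩
    · lift ε to ℝ≥0 using hne
      have hε' : 0 < ε := by exact_mod_cast hε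
      refine ⟨ε / 3, by positivity, ?_⟩
      rw [← ENNReal.coe_add, ENNReal.coe_lt_coe, ← NNReal.coe_lt_coe]
      push_cast
      have : (0 : ℝ) < ε := hε'
      linarith
  obtain ⟨N, hN⟩ := hu δ (by exact_mod_cast hδ0)
  refine ⟨N, fun n hn => ?_⟩
  have hn' : ∀ j, N ≤ j → edist (u n) (u j) ≤ δ := fun j hj => (hN n hn j hj).le
  refine lt_of_le_of_lt ?_ hδ
  show (⨆ x, ‖diffMap (u n) T' x‖ₑ) + eHolderNorm α (diffMap (u n) T') ≤ _
  exact add_le_add (iSup_le fun x => hlim2 δ N n hn' x) (hlim1 δ N n hn').eHolderNorm_le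

/-- The set of `T ∈ L_α` with `mdim = (1 - α) m` is not residual. -/
theorem not_residual (hm : 2 ≤ m) (h1 : (1 : ℝ) - 1 / m < α) (h2 : α < 1) :
    {T : Lalpha m α | upperMdim T.1.1 = (((1 - (α : ℝ)) * m : ℝ) : EReal)} ∉
      residual (Lalpha m α) := by
  obtain ⟨θ, hθ, hle⟩ := uniform_gap hm h1 h2
  have hempty : {T : Lalpha m α | upperMdim T.1.1 = (((1 - (α : ℝ)) * m : ℝ) : EReal)} = ∅ := by
    ext T
    simp only [Set.mem_empty_iff_false, iff_false]
    intro hT
    have h3 : upperMdim T.1.1 = (((1 - (α : ℝ)) * m : ℝ) : EReal) := hT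
    have h4 := hle T.1 T.2
    rw [h3, EReal.coe_le_coe_iff] at h4
    linarith
  rw [hempty]
  intro hres
  have : CompleteSpace (Lalpha m α) := (isClosed_closure (s := {T : HMap m α |
    IsBiLipHomeo T.1})).completeSpace_coe
  have hid : MemHolder α (id : Torus m → Torus m) :=
    (holderWith_id.memHolder).of_le h2.le
  have hne : Nonempty (Lalpha m α) := ⟨⟨⟨id, hid⟩, subset_closure
    ⟨Function.bijective_id, ⟨1, LipschitzWith.id⟩, ⟨1, AntilipschitzWith.id⟩⟩⟩⟩
  have hd := dense_of_mem_residual hres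
  obtain ⟨T⟩ := hne
  have := hd T
  rw [closure_empty] at this
  exact this

end Pool.Agent.N219.HL
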