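import Pool.Agent.N219.HL.Defs

/-!
# Cubes on the torus
-/

open Filter Topology

namespace Pool.Agent.N219.HL

lemma coe_int_eq (n : ℤ) : (((n : ℝ)) : UnitAddCircle) = 0 := by
  rw [AddCircle.coe_eq_zero_iff]
  exact ⟨n, by simp⟩

lemma exists_lift (z : UnitAddCircle) : ∃ t : ℝ, (t : UnitAddCircle) = z ∧ |t| = ‖z‖ := by
  obtain ⟨x, rfl⟩ := QuotientAddGroup.mk_surjective z
  refine ⟨x - round x, ?_, ?_⟩
  · have : ((x - round x : ℝ) : UnitAddCircle) = (x : UnitAddCircle) - ((round x : ℝ)) := rfl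
    rw [this, coe_int_eq, sub_zero]
  · exact UnitAddCircle.norm_eq.symm

lemma norm_coe_le (t : ℝ) : ‖(t : UnitAddCircle)‖ ≤ |t| := by
  rw [UnitAddCircle.norm_eq]
  simpa using round_le t 0

lemma dist_coe_le (s t : ℝ) : dist (s : UnitAddCircle) (t : UnitAddCircle) ≤ |s - t| := by
  rw [dist_eq_norm]
  exact norm_coe_le (s - t)

/-- the grid points on the circle -/
noncomputable def gp (M : ℕ) (k : Fin M) : UnitAddCircle := (((k : ℕ) : ℝ) / M : ℝ)

lemma grid_count {M : ℕ} (hM : 0 < M) (y : UnitAddCircle) {R : ℝ} (hR : 0 ≤ R) :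
    ((Finset.univ.filter fun k : Fin M => dist (gp M k) y ≤ R).card : ℝ) ≤ 2 * R * M + 1 := by
  obtain ⟨y0, rfl⟩ := QuotientAddGroup.mk_surjective y
  have hMr : (0 : ℝ) < M := by exact_mod_cast hM
  set S := Finset.univ.filter fun k : Fin M => dist (gp M k) (QuotientAddGroup.mk y0) ≤ R with hS
  let g : Fin M → ℤ := fun k => (k : ℕ) - M * round (((k : ℕ) : ℝ) / M - y0)
  have hmaps : ∀ k ∈ S, g k ∈ Finset.Icc ⌈(M : ℝ) * y0 - R * M⌉ ⌊(M : ℝ) * y0 + R * M⌋ := by
    intro k hk
    have h1 : dist (gp M k) (QuotientAddGroup.mk y0) ≤ R := (Finset.mem_filter.mp hk).2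
    have h2 : dist (gp M k) (QuotientAddGroup.mk y0) =
        |(((k : ℕ) : ℝ) / M - y0) - round (((k : ℕ) : ℝ) / M - y0)| := by
      rw [dist_eq_norm]
      exact UnitAddCircle.norm_eq
    rw [h2, abs_le] at h1
    have h3 : ((g k : ℤ) : ℝ) = ((((k : ℕ) : ℝ) / M - y0) - round (((k : ℕ) : ℝ) / M - y0)) * M
        + M * y0 := by
      simp only [g]
      push_cast
      field_simp
      ring
    rw [Finset.mem_Icc]
    constructor
    · rw [Int.ceil_le, h3]
      nlinarith [h1.1]
    · rw [Int.le_floor, h3]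
      nlinarith [h1.2]
  have hinj : Set.InjOn g (S : Set (Fin M)) := by
    intro a _ b _ hab
    simp only [g] at hab
    have ha : ((a : ℕ) : ℤ) < M := by exact_mod_cast a.2
    have hb : ((b : ℕ) : ℤ) < M := by exact_mod_cast b.2
    have ha0 : (0 : ℤ) ≤ ((a : ℕ) : ℤ) := by positivity
    have hb0 : (0 : ℤ) ≤ ((b : ℕ) : ℤ) := by positivity
    have hMz : (0 : ℤ) < M := by exact_mod_cast hM
    have e : ((a : ℕ) : ℤ) - (b : ℕ) =
        M * (round (((a : ℕ) : ℝ) / M - y0) - round (((b : ℕ) : ℝ) / M - y0)) := by linarith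
    have hw : (round (((a : ℕ) : ℝ) / M - y0) - round (((b : ℕ) : ℝ) / M - y0)) = 0 := by
      by_contra hne
      rcases lt_or_gt_of_ne hne with h | h
      · have : (round (((a : ℕ) : ℝ) / M - y0) - round (((b : ℕ) : ℝ) / M - y0)) ≤ -1 := by omega
        nlinarith
      · have : 1 ≤ (round (((a : ℕ) : ℝ) / M - y0) - round (((b : ℕ) : ℝ) / M - y0)) := by omega
        nlinarith
    rw [hw, mul_zero] at e
    apply Fin.ext
    omega
  have hcard := Finset.card_le_card_of_injOn g hmaps hinj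
  rw [Int.card_Icc] at hcard
  have h4 : (((⌊(M : ℝ) * y0 + R * M⌋ + 1 - ⌈(M : ℝ) * y0 - R * M⌉).toNat : ℕ) : ℝ) ≤
      2 * R * M + 1 := by
    rcases le_or_gt 0 (⌊(M : ℝ) * y0 + R * M⌋ + 1 - ⌈(M : ℝ) * y0 - R * M⌉) with h | h
    · have e : (((⌊(M : ℝ) * y0 + R * M⌋ + 1 - ⌈(M : ℝ) * y0 - R * M⌉).toNat : ℕ) : ℝ) =
          ((⌊(M : ℝ) * y0 + R * M⌋ + 1 - ⌈(M : ℝ) * y0 - R * M⌉ : ℤ) : ℝ) := by
        exact_mod_cast congrArg (Int.cast : ℤ → ℝ) (Int.toNat_of_nonneg h)
      rw [e]
      push_cast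
      have f1 := Int.floor_le ((M : ℝ) * y0 + R * M)
      have f2 := Int.le_ceil ((M : ℝ) * y0 - R * M)
      linarith
    · rw [Int.toNat_of_nonpos h.le]
      simp only [Nat.cast_zero]
      positivity
  have h5 : (S.card : ℝ) ≤ ((⌊(M : ℝ) * y0 + R * M⌋ + 1 - ⌈(M : ℝ) * y0 - R * M⌉).toNat : ℕ) := by
    exact_mod_cast hcard
  linarith

lemma grid_cover {M : ℕ} (hM : 0 < M) (x : UnitAddCircle) :
    ∃ k : Fin M, dist (gp M k) x ≤ 1 / (2 * M) := by
  obtain ⟨x0, rfl⟩ := QuotientAddGroup.mk_surjective x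
  have hMr : (0 : ℝ) < M := by exact_mod_cast hM
  have hMz : (0 : ℤ) < M := by exact_mod_cast hM
  set z : ℤ := round ((M : ℝ) * x0) with hz
  have hn := Int.emod_nonneg z hMz.ne'
  have hl := Int.emod_lt_of_pos z hMz
  have hk : (z % M).toNat < M := by omega
  refine ⟨⟨(z % M).toNat, hk⟩, ?_⟩
  have e1 : (((z % M).toNat : ℕ) : ℝ) = z - M * ((z / M : ℤ) : ℝ) := by
    have h1 : (((z % M).toNat : ℕ) : ℤ) = z % M := Int.toNat_of_nonneg hn
    have h2 : z % M = z - M * (z / M) := Int.emod_def z M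
    have h3 : (((z % M).toNat : ℕ) : ℤ) = z - M * (z / M) := h1.trans h2
    exact_mod_cast congrArg (Int.cast : ℤ → ℝ) h3
  have e2 : gp M ⟨(z % M).toNat, hk⟩ = (((z : ℝ) / M : ℝ) : UnitAddCircle) := by
    unfold gp
    simp only
    rw [e1]
    have : ((z : ℝ) - M * ((z / M : ℤ) : ℝ)) / M = (z : ℝ) / M - ((z / M : ℤ) : ℝ) := by
      field_simp
    rw [this]
    have h : (((z : ℝ) / M - ((z / M : ℤ) : ℝ) : ℝ) : UnitAddCircle) =
      (((z : ℝ) / M : ℝ) : UnitAddCircle) - ((((z / M : ℤ) : ℝ)) : UnitAddCircle) := rfl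
    rw [h, coe_int_eq, sub_zero]
  rw [e2]
  refine (dist_coe_le _ _).trans ?_
  have h3 : |(M : ℝ) * x0 - z| ≤ 1 / 2 := abs_sub_round _
  have h4 : |(z : ℝ) / M - x0| = |(M : ℝ) * x0 - z| / M := by
    rw [← abs_of_pos hMr, ← abs_div, abs_of_pos hMr, abs_sub_comm]
    congr 1
    field_simp
  rw [h4]
  rw [div_le_div_iff₀ hMr (by positivity)]
  nlinarith

/-- the centres of the cubes -/
noncomputable def ctr {m : ℕ} (M : ℕ) (k : Fin m → Fin M) : Torus m := fun i => gp M (k i)

lemma ctr_count {m M : ℕ} (hM : 0 < M) (y : Torus m) {R : ℝ} (hR : 0 ≤ R) :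
    ((Finset.univ.filter fun k : Fin m → Fin M => dist (ctr M k) y ≤ R).card : ℝ) ≤
      (2 * R * M + 1) ^ m := by
  classical
  have e : (Finset.univ.filter fun k : Fin m → Fin M => dist (ctr M k) y ≤ R) =
      Fintype.piFinset fun i => Finset.univ.filter fun k : Fin M => dist (gp M k) (y i) ≤ R := by
    ext k
    simp only [Finset.mem_filter, Finset.mem_univ, true_and, Fintype.mem_piFinset]
    rw [dist_pi_le_iff hR]
    rfl
  rw [e, Fintype.card_piFinset]
  push_cast
  calc ∏ i : Fin m, ((Finset.univ.filter fun k : Fin M => dist (gp M k) (y i) ≤ R).card : ℝ)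
      ≤ ∏ _i : Fin m, (2 * R * M + 1) :=
        Finset.prod_le_prod (fun i _ => by positivity) fun i _ => grid_count hM (y i) hR
    _ = (2 * R * M + 1) ^ m := by rw [Finset.prod_const, Finset.card_univ, Fintype.card_fin]

lemma ctr_cover {m M : ℕ} (hM : 0 < M) (x : Torus m) :
    ∃ k : Fin m → Fin M, x ∈ Metric.closedBall (ctr M k) (1 / (2 * M)) := by
  choose k hk using fun i => grid_cover hM (x i)
  refine ⟨k, ?_⟩
  rw [Metric.mem_closedBall, dist_comm]
  have hMr : (0 : ℝ) < M := by exact_mod_cast hM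
  rw [dist_pi_le_iff (by positivity)]
  exact hk

lemma preconnected_ball (c : UnitAddCircle) (r : ℝ) :
    IsPreconnected (Metric.closedBall c r) := by
  have e : Metric.closedBall c r = (fun t : ℝ => c + (t : UnitAddCircle)) '' Set.Icc (-r) r := by
    ext y
    constructor
    · intro hy
      obtain ⟨t, ht, ht'⟩ := exists_lift (y - c)
      refine ⟨t, ?_, ?_⟩
      · rw [Set.mem_Icc, ← abs_le, ht', ← dist_eq_norm]
        exact hy
      · simp only [ht]
        abel
    · rintro ⟨t, ht, rfl⟩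
      rw [Metric.mem_closedBall, dist_eq_norm]
      simp only [add_sub_cancel_left]
      exact (norm_coe_le t).trans (abs_le.mpr ht)
  rw [e]
  apply isPreconnected_Icc.image
  exact (continuous_const.add (AddCircle.continuous_mk' (1 : ℝ))).continuousOn

lemma preconnected_cube {m : ℕ} (c : Torus m) {r : ℝ} (hr : 0 ≤ r) :
    IsPreconnected (Metric.closedBall c r) := by
  rw [closedBall_pi _ hr]
  exact isPreconnected_univ_pi fun i => preconnected_ball _ _

open Classical in
lemma card_codes_le {m : ℕ} (P : ℕ) :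
    ((Finset.univ.filter fun f : Fin m → Fin (P + 1) =>
      ∃ i, f i = 0 ∨ f i = Fin.last P).card : ℝ) ≤ 2 * m * ((P : ℝ) + 1) ^ (m - 1) := by
  have hcard : ∀ (i : Fin m) (v : Fin (P + 1)),
      (Finset.univ.filter fun f : Fin m → Fin (P + 1) => f i = v).card = (P + 1) ^ (m - 1) := by
    intro i v
    have e : (Finset.univ.filter fun f : Fin m → Fin (P + 1) => f i = v) =
        Fintype.piFinset fun j => if j = i then {v} else Finset.univ := by
      ext f
      simp only [Finset.mem_filter, Finset.mem_univ, true_and, Fintype.mem_piFinset]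
      constructor
      · intro h j
        split_ifs with hj
        · rw [hj, h]; simp
        · simp
      · intro h
        have := h i
        simpa using this
    rw [e, Fintype.card_piFinset, ← Finset.mul_prod_erase Finset.univ _ (Finset.mem_univ i)]
    rw [if_pos rfl, Finset.card_singleton, one_mul]
    have : ∀ j ∈ Finset.univ.erase i,
        (if j = i then ({v} : Finset (Fin (P + 1))) else Finset.univ).card = P + 1 := by
      intro j hj
      rw [if_neg (Finset.ne_of_mem_erase hj)]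
      simp
    rw [Finset.prod_congr rfl this, Finset.prod_const, Finset.card_erase_of_mem (Finset.mem_univ i)]
    simp
  have hsub : (Finset.univ.filter fun f : Fin m → Fin (P + 1) => ∃ i, f i = 0 ∨ f i = Fin.last P) ⊆
      Finset.univ.biUnion fun i : Fin m =>
        (Finset.univ.filter fun f : Fin m → Fin (P + 1) => f i = 0) ∪
        (Finset.univ.filter fun f : Fin m → Fin (P + 1) => f i = Fin.last P) := by
    intro f hf
    obtain ⟨i, hi⟩ := (Finset.mem_filter.mp hf).2
    refine Finset.mem_biUnion.mpr ⟨i, Finset.mem_univ _, ?_⟩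
    rcases hi with h | h
    · exact Finset.mem_union_left _ (Finset.mem_filter.mpr ⟨Finset.mem_univ _, h⟩)
    · exact Finset.mem_union_right _ (Finset.mem_filter.mpr ⟨Finset.mem_univ _, h⟩)
  have h1 := (Finset.card_le_card hsub).trans (Finset.card_biUnion_le)
  have h2 : ∑ i : Fin m, ((Finset.univ.filter fun f : Fin m → Fin (P + 1) => f i = 0) ∪
        (Finset.univ.filter fun f : Fin m → Fin (P + 1) => f i = Fin.last P)).card ≤
        ∑ _i : Fin m, 2 * (P + 1) ^ (m - 1) := by
    apply Finset.sum_le_sum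
    intro i _
    refine (Finset.card_union_le _ _).trans ?_
    rw [hcard, hcard]
    omega
  rw [Finset.sum_const, Finset.card_univ, Fintype.card_fin, smul_eq_mul] at h2
  have h3 := h1.trans h2
  have h4 : ((Finset.univ.filter fun f : Fin m → Fin (P + 1) =>
      ∃ i, f i = 0 ∨ f i = Fin.last P).card : ℝ) ≤ ((m * (2 * (P + 1) ^ (m - 1)) : ℕ) : ℝ) := by
    exact_mod_cast h3
  refine h4.trans (le_of_eq ?_)
  push_cast
  ring

/-- the boundary of a cube of radius `r` can be coded by few codes with fibres of diameter at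
most `ρ` -/
lemma frontier_code {m : ℕ} (hm : 0 < m) (c : Torus m) {r ρ : ℝ} (hr : 0 ≤ r) (hρ : 0 < ρ) :
    ∃ (G : Finset (Fin m → Fin (⌊2 * r / ρ⌋₊ + 1))) (code : Torus m → (Fin m → Fin (⌊2 * r / ρ⌋₊ + 1))),
      (G.card : ℝ) ≤ 2 * m * (2 * r / ρ + 1) ^ (m - 1) ∧
      (∀ x ∈ frontier (Metric.closedBall c r), code x ∈ G) ∧
      ∀ x ∈ frontier (Metric.closedBall c r), ∀ y ∈ frontier (Metric.closedBall c r),
        code x = code y → dist x y ≤ ρ := by
  classical
  set P := ⌊2 * r / ρ⌋₊ with hP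
  have hPle : (P : ℝ) ≤ 2 * r / ρ := Nat.floor_le (by positivity)
  choose lift hlift1 hlift2 using exists_lift
  have hval : ∀ x : Torus m, ∀ i, min ⌊(lift (x i - c i) + r) / ρ⌋₊ P < P + 1 := fun x i =>
    Nat.lt_succ_of_le (min_le_right _ _)
  refine ⟨Finset.univ.filter fun f : Fin m → Fin (P + 1) => ∃ i, f i = 0 ∨ f i = Fin.last P,
    fun x i => ⟨min ⌊(lift (x i - c i) + r) / ρ⌋₊ P, hval x i⟩, ?_, ?_, ?_⟩
  · refine (card_codes_le P).trans ?_
    gcongr
  · intro x hx
    have hx' : dist x c = r := Metric.frontier_closedBall_subset_sphere hx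
    refine Finset.mem_filter.mpr ⟨Finset.mem_univ _, ?_⟩
    -- some coordinate attains the maximum
    have : ∃ i, dist (x i) (c i) = r := by
      by_contra hcon
      push Not at hcon
      have hlt : ∀ i, dist (x i) (c i) < r := fun i =>
        lt_of_le_of_ne ((dist_le_pi_dist x c i).trans hx'.le) (hcon i)
      have hr0 : 0 < r := lt_of_le_of_lt dist_nonneg (hlt ⟨0, hm⟩)
      have := (dist_pi_lt_iff hr0).mpr hlt
      linarith
    obtain ⟨i, hi⟩ := this
    refine ⟨i, ?_⟩
    rw [dist_eq_norm, ← hlift2] at hi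
    rcases (abs_eq hr).mp hi with h | h
    · right
      apply Fin.ext
      simp only [Fin.val_last, h]
      have : (r + r) / ρ = 2 * r / ρ := by ring
      rw [this, ← hP, min_self]
    · left
      apply Fin.ext
      simp [h]
  · intro x hx y hy hxy
    have hx' : dist x c = r := Metric.frontier_closedBall_subset_sphere hx
    have hy' : dist y c = r := Metric.frontier_closedBall_subset_sphere hy
    rw [dist_pi_le_iff hρ.le]
    intro i
    have h1 : min ⌊(lift (x i - c i) + r) / ρ⌋₊ P = min ⌊(lift (y i - c i) + r) / ρ⌋₊ P := by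
      have := congrFun hxy i
      exact congrArg Fin.val this
    have hbound : ∀ z : Torus m, dist z c = r →
        0 ≤ lift (z i - c i) + r ∧ lift (z i - c i) + r ≤ 2 * r := by
      intro z hz
      have : |lift (z i - c i)| ≤ r := by
        rw [hlift2, ← dist_eq_norm]
        exact (dist_le_pi_dist z c i).trans hz.le
      rw [abs_le] at this
      constructor <;> linarith [this.1, this.2]
    have hbx := hbound x hx'
    have hby := hbound y hy'
    have hfl : ∀ t : ℝ, 0 ≤ t → t ≤ 2 * r → min ⌊t / ρ⌋₊ P = ⌊t / ρ⌋₊ := by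
      intro t _ ht2
      apply min_eq_left
      rw [hP]
      apply Nat.floor_le_floor
      gcongr
    rw [hfl _ hbx.1 hbx.2, hfl _ hby.1 hby.2] at h1
    have a1 := Nat.floor_le (a := (lift (x i - c i) + r) / ρ) (div_nonneg hbx.1 hρ.le)
    have a2 := Nat.lt_floor_add_one ((lift (x i - c i) + r) / ρ)
    have b1 := Nat.floor_le (a := (lift (y i - c i) + r) / ρ) (div_nonneg hby.1 hρ.le)
    have b2 := Nat.lt_floor_add_one ((lift (y i - c i) + r) / ρ)
    rw [h1] at a1 a2
    have hdiff : |lift (x i - c i) - lift (y i - c i)| ≤ ρ := by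
      have e : lift (x i - c i) - lift (y i - c i) =
          ((lift (x i - c i) + r) / ρ - (lift (y i - c i) + r) / ρ) * ρ := by
        field_simp
        ring
      rw [e, abs_mul, abs_of_pos hρ]
      have : |(lift (x i - c i) + r) / ρ - (lift (y i - c i) + r) / ρ| ≤ 1 := by
        rw [abs_le]; constructor <;> linarith
      nlinarith
    have e2 : x i - y i = ((lift (x i - c i) - lift (y i - c i) : ℝ) : UnitAddCircle) := by
      have : ((lift (x i - c i) - lift (y i - c i) : ℝ) : UnitAddCircle) =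
        (lift (x i - c i) : UnitAddCircle) - (lift (y i - c i) : UnitAddCircle) := rfl
      rw [this, hlift1, hlift1]
      abel
    rw [dist_eq_norm, e2]
    exact (norm_coe_le _).trans hdiff

end Pool.Agent.N219.HL
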