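import Pool.Agent.N219.HL.Core
import Pool.Agent.N219.HL.Geo

/-!
# Separated sets of Hölder homeomorphisms of the torus
-/

open Filter Topology

namespace Pool.Agent.N219.HL

variable {m : ℕ}

/-- the cubes -/
def cube (M : ℕ) (k : Fin m → Fin M) : Set (Torus m) :=
  Metric.closedBall (ctr M k) (1 / (2 * M))

lemma count_R (S : Torus m ≃ₜ Torus m) {C α : ℝ} (hα : 0 < α) (hC : 0 ≤ C)
    (hS : ∀ x y, dist (S x) (S y) ≤ C * dist x y ^ α) {M : ℕ} (hM : 0 < M) (i : Fin m → Fin M)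
    (R : (Fin m → Fin M) → (Fin m → Fin M) → Prop) [∀ j, Decidable (R i j)]
    (hR : ∀ j, R i j → ∃ x ∈ cube M i, S x ∈ cube M j) :
    ((Finset.univ.filter fun j => R i j).card : ℝ) ≤
      (2 * (1 / (2 * M) + C * (1 / (2 * (M : ℝ))) ^ α) * M + 1) ^ m := by
  have hMr : (0 : ℝ) < M := by exact_mod_cast hM
  refine le_trans ?_ (ctr_count hM (S (ctr M i))
    (R := 1 / (2 * M) + C * (1 / (2 * (M : ℝ))) ^ α) (by positivity))
  have : (Finset.univ.filter fun j => R i j) ⊆ Finset.univ.filter fun j =>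
      dist (ctr M j) (S (ctr M i)) ≤ 1 / (2 * M) + C * (1 / (2 * (M : ℝ))) ^ α := by
    intro j hj
    obtain ⟨x, hx, hx'⟩ := hR j (Finset.mem_filter.mp hj).2
    refine Finset.mem_filter.mpr ⟨Finset.mem_univ _, ?_⟩
    have h1 : dist (ctr M j) (S x) ≤ 1 / (2 * M) := by
      rw [dist_comm]; exact hx'
    have h2 : dist (S x) (S (ctr M i)) ≤ C * (1 / (2 * (M : ℝ))) ^ α := by
      refine (hS _ _).trans ?_
      have : dist x (ctr M i) ≤ 1 / (2 * M) := hx
      gcongr
    exact (dist_triangle _ (S x) _).trans (add_le_add h1 h2)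
  exact_mod_cast Finset.card_le_card this

lemma count_Rb (hm : 0 < m) (S : Torus m ≃ₜ Torus m) {C α : ℝ} (hα : 0 < α) (hC : 0 ≤ C)
    (hS : ∀ x y, dist (S x) (S y) ≤ C * dist x y ^ α) {M : ℕ} (hM : 0 < M) {ρ : ℝ} (hρ : 0 < ρ)
    (hρM : C * ρ ^ α ≤ 1 / M) (i : Fin m → Fin M)
    (R : (Fin m → Fin M) → (Fin m → Fin M) → Prop) [∀ j, Decidable (R i j)]
    (hR : ∀ j, R i j → ∃ x ∈ frontier (cube M i), S x ∈ cube M j) :
    ((Finset.univ.filter fun j => R i j).card : ℝ) ≤
      (2 * m * (2 * (1 / (2 * M)) / ρ + 1) ^ (m - 1)) * 4 ^ m := by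
  classical
  have hMr : (0 : ℝ) < M := by exact_mod_cast hM
  obtain ⟨G, code, hG, hcode, hclose⟩ := frontier_code hm (ctr M i) (r := 1 / (2 * (M : ℝ)))
    (by positivity) hρ
  -- representatives
  let rep : (Fin m → Fin (⌊2 * (1 / (2 * (M : ℝ))) / ρ⌋₊ + 1)) → Torus m := fun g =>
    if h : ∃ y ∈ frontier (cube M i), code y = g then h.choose else ctr M i
  have hrep : ∀ x ∈ frontier (cube M i), rep (code x) ∈ frontier (cube M i) ∧
      code (rep (code x)) = code x := by
    intro x hx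
    have h : ∃ y ∈ frontier (cube M i), code y = code x := ⟨x, hx, rfl⟩
    simp only [rep, dif_pos h]
    exact h.choose_spec
  have hsub : (Finset.univ.filter fun j => R i j) ⊆ G.biUnion fun g =>
      Finset.univ.filter fun j => dist (ctr M j) (S (rep g)) ≤ 3 / (2 * M) := by
    intro j hj
    obtain ⟨x, hx, hx'⟩ := hR j (Finset.mem_filter.mp hj).2
    refine Finset.mem_biUnion.mpr ⟨code x, hcode x hx, ?_⟩
    refine Finset.mem_filter.mpr ⟨Finset.mem_univ _, ?_⟩
    have h1 : dist (ctr M j) (S x) ≤ 1 / (2 * M) := by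
      rw [dist_comm]; exact hx'
    have h2 : dist (S x) (S (rep (code x))) ≤ 1 / M := by
      refine ((hS _ _).trans ?_).trans hρM
      have : dist x (rep (code x)) ≤ ρ :=
        hclose x hx _ (hrep x hx).1 (hrep x hx).2.symm
      gcongr
    have h3 := dist_triangle (ctr M j) (S x) (S (rep (code x)))
    have h4 : (1 : ℝ) / (2 * M) + 1 / M = 3 / (2 * M) := by
      field_simp
      norm_num
    linarith
  have h1 := (Finset.card_le_card hsub).trans Finset.card_biUnion_le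
  calc ((Finset.univ.filter fun j => R i j).card : ℝ)
      ≤ ∑ g ∈ G, ((Finset.univ.filter fun j : Fin m → Fin M =>
          dist (ctr M j) (S (rep g)) ≤ 3 / (2 * M)).card : ℝ) := by exact_mod_cast h1
    _ ≤ ∑ g ∈ G, (4 : ℝ) ^ m := by
        apply Finset.sum_le_sum
        intro g _
        have h := ctr_count (m := m) hM (S (rep g)) (R := 3 / (2 * (M : ℝ))) (by positivity)
        have e : 2 * (3 / (2 * (M : ℝ))) * M + 1 = 4 := by
          field_simp
          norm_num
        rwa [e] at h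
    _ = G.card * 4 ^ m := by rw [Finset.sum_const, nsmul_eq_mul]
    _ ≤ _ := by gcongr

lemma inter_frontier_nonempty' {X : Type*} [TopologicalSpace X] {V s : Set X}
    (hV : IsPreconnected V) (h1 : (V ∩ s).Nonempty) (h2 : (V ∩ sᶜ).Nonempty) :
    (V ∩ frontier s).Nonempty := by
  by_contra hcon
  rw [Set.not_nonempty_iff_eq_empty] at hcon
  have hnot : ∀ x ∈ V, x ∉ frontier s := fun x hx hf =>
    (Set.mem_empty_iff_false x).mp (hcon ▸ ⟨hx, hf⟩)
  have hsub : V ⊆ interior s ∪ (closure s)ᶜ := by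
    intro x hx
    by_cases hxc : x ∈ closure s
    · left
      by_contra hi
      exact hnot x hx ⟨hxc, hi⟩
    · right; exact hxc
  obtain ⟨x, hx, hx'⟩ := h1
  obtain ⟨y, hy, hy'⟩ := h2
  have hxi : x ∈ interior s := by
    by_contra hi
    exact hnot x hx ⟨subset_closure hx', hi⟩
  have hyc : y ∈ (closure s)ᶜ := by
    intro hyc
    exact hnot y hy ⟨hyc, fun hi => hy' (interior_subset hi)⟩
  obtain ⟨z, _, hz1, hz2⟩ := hV _ _ isOpen_interior isClosed_closure.isOpen_compl hsub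
    ⟨x, hx, hxi⟩ ⟨y, hy, hyc⟩
  exact hz2 (subset_closure (interior_subset hz1))

lemma trans_split (S : Torus m ≃ₜ Torus m) {M : ℕ} (i j : Fin m → Fin M)
    (h : ∃ x ∈ cube M i, S x ∈ cube M j) :
    (∃ x ∈ frontier (cube M i), S x ∈ cube M j) ∨ S.symm (ctr M j) ∈ cube M i := by
  by_contra hcon
  push Not at hcon
  obtain ⟨h1, h2⟩ := hcon
  obtain ⟨x, hx, hx'⟩ := h
  have hV : IsPreconnected (S ⁻¹' cube M j) := by
    rw [← S.image_symm]
    exact (preconnected_cube (ctr M j) (by positivity)).image _ S.symm.continuous.continuousOn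
  have hc : S.symm (ctr M j) ∈ S ⁻¹' cube M j := by
    show S (S.symm (ctr M j)) ∈ cube M j
    rw [S.apply_symm_apply]
    exact Metric.mem_closedBall_self (by positivity)
  obtain ⟨y, hy, hy'⟩ := inter_frontier_nonempty' (s := cube M i) hV ⟨x, hx', hx⟩ ⟨_, hc, h2⟩
  exact h1 y hy' hy

/-- the raw bound -/
lemma raw_bound (hm : 0 < m) (S : Torus m ≃ₜ Torus m) {C α : ℝ} (hα : 0 < α) (hC : 0 ≤ C)
    (hS : ∀ x y, dist (S x) (S y) ≤ C * dist x y ^ α) {M : ℕ} (hM : 0 < M) {ρ : ℝ} (hρ : 0 < ρ)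
    (hρM : C * ρ ^ α ≤ 1 / M) (k q r : ℕ) {ε : ℝ} (hε : 1 / M ≤ ε) (E : Finset (Torus m))
    (hE : IsSep S (r + q * (k + 1) + 1) ε E) {A B : ℝ}
    (hA : (2 * (1 / (2 * M) + C * (1 / (2 * (M : ℝ))) ^ α) * M + 1) ^ m ≤ A)
    (hB : (2 * m * (2 * (1 / (2 * M)) / ρ + 1) ^ (m - 1)) * 4 ^ m ≤ B) :
    (E.card : ℝ) ≤ (M : ℝ) ^ m *
      (((2 ^ m) ^ (k + 1) * (M : ℝ) ^ m + (k + 1) * A ^ k * B) ^ q * A ^ r) := by
  classical
  have hMr : (0 : ℝ) < M := by exact_mod_cast hM
  choose c hc using fun x : Torus m => ctr_cover (m := m) hM x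
  let R : (Fin m → Fin M) → (Fin m → Fin M) → Prop := fun i j => ∃ x ∈ cube M i, S x ∈ cube M j
  let Rb : (Fin m → Fin M) → (Fin m → Fin M) → Prop := fun i j =>
    ∃ x ∈ frontier (cube M i), S x ∈ cube M j
  let Rc : (Fin m → Fin M) → (Fin m → Fin M) → Prop := fun i j => S.symm (ctr M j) ∈ cube M i
  have hA0 : 0 ≤ A := le_trans (by positivity) hA
  have hB0 : 0 ≤ B := le_trans (by positivity) hB
  have hcardR : ∀ i, ((Finset.univ.filter (fun j => R i j)).card : ℝ) ≤ A := fun i =>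
    (count_R S hα hC hS hM i R fun j h => h).trans hA
  have hcardRc : ∀ i, ((Finset.univ.filter (fun j => Rc i j)).card : ℝ) ≤ A := fun i =>
    (count_R S hα hC hS hM i Rc fun j h => ⟨S.symm (ctr M j), h, by
      rw [S.apply_symm_apply]; exact Metric.mem_closedBall_self (by positivity)⟩).trans hA
  have hcardRb : ∀ i, ((Finset.univ.filter (fun j => Rb i j)).card : ℝ) ≤ B := fun i =>
    (count_Rb hm S hα hC hS hM hρ hρM i Rb fun j h => h).trans hB
  have hW : ∀ j, ((Finset.univ.filter (fun i => Rc i j)).card : ℝ) ≤ 2 ^ m := by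
    intro j
    have h := ctr_count (m := m) hM (S.symm (ctr M j)) (R := 1 / (2 * (M : ℝ))) (by positivity)
    have e : 2 * (1 / (2 * (M : ℝ))) * M + 1 = 2 := by
      field_simp
      norm_num
    rw [e] at h
    refine le_trans (le_of_eq ?_) h
    congr 2
    ext i
    simp only [Finset.mem_filter, Finset.mem_univ, true_and]
    show S.symm (ctr M j) ∈ Metric.closedBall (ctr M i) (1 / (2 * M)) ↔ _
    rw [Metric.mem_closedBall, dist_comm]
  have hblock := pc_block R Rb Rc (fun i j h => trans_split S i j h) hA0 hB0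
    (W := 2 ^ m) (by positivity) hcardR hcardRc hcardRb hW k
  have hcardι : (Fintype.card (Fin m → Fin M) : ℝ) = (M : ℝ) ^ m := by
    simp
  rw [hcardι] at hblock
  set P : ℝ := (2 ^ m) ^ (k + 1) * (M : ℝ) ^ m + (k + 1) * A ^ k * B with hP
  have hP0 : 0 ≤ P := by positivity
  have hcc : ∀ x y : Torus m, c x = c y → dist x y ≤ ε := by
    intro x y hxy
    have h1 := hc x
    have h2 := hc y
    rw [← hxy] at h2
    rw [Metric.mem_closedBall] at h1 h2
    have h3 := dist_triangle_right x y (ctr M (c x))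
    have h4 : (1 : ℝ) / (2 * M) + 1 / (2 * M) = 1 / M := by
      field_simp
      norm_num
    linarith
  have hsep := sep_le S (ε := ε) c hcc R (fun x => ⟨x, hc x, hc (S x)⟩) _ E hE
  refine hsep.trans ?_
  calc ∑ i, pc R (r + q * (k + 1)) i ≤ ∑ _i : Fin m → Fin M, P ^ q * A ^ r := by
        apply Finset.sum_le_sum
        intro i _
        refine (pc_mul R hP0 (k + 1) hblock q r i).trans ?_
        exact mul_le_mul_of_nonneg_left (pc_le_pow R hA0 hcardR r i) (by positivity)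
    _ = (M : ℝ) ^ m * (P ^ q * A ^ r) := by
        rw [Finset.sum_const, Finset.card_univ, nsmul_eq_mul, hcardι]

end Pool.Agent.N219.HL
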