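import Pool.Agent.N219.HL.Bound

/-!
# Limits of Hölder homeomorphisms
-/

open Filter Topology
open scoped ENNReal NNReal

namespace Pool.Agent.N219.HL

variable {m : ℕ} {α : ℝ≥0}

lemma toCircle_bounds (x y : UnitAddCircle) :
    dist x y ≤ ‖(AddCircle.toCircle x : ℂ) - AddCircle.toCircle y‖ ∧
    ‖(AddCircle.toCircle x : ℂ) - AddCircle.toCircle y‖ ≤ 2 * Real.pi * dist x y := by
  obtain ⟨t, ht, ht'⟩ := exists_lift (x - y)
  have e1 : ‖(AddCircle.toCircle x : ℂ) - AddCircle.toCircle y‖ =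
      ‖(AddCircle.toCircle (x - y) : ℂ) - 1‖ := by
    have h : AddCircle.toCircle x = AddCircle.toCircle (x - y) * AddCircle.toCircle y := by
      rw [← AddCircle.toCircle_add, sub_add_cancel]
    rw [h]
    push_cast
    have : (AddCircle.toCircle (x - y) : ℂ) * AddCircle.toCircle y - AddCircle.toCircle y =
      ((AddCircle.toCircle (x - y) : ℂ) - 1) * AddCircle.toCircle y := by ring
    rw [this, norm_mul, Circle.norm_coe, mul_one]
  have e2 : ‖(AddCircle.toCircle (x - y) : ℂ) - 1‖ = ‖2 * Real.sin (2 * Real.pi * t / 2)‖ := by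
    rw [← Complex.norm_exp_I_mul_ofReal_sub_one, ← ht, AddCircle.toCircle_apply_mk, Circle.coe_exp]
    congr 3
    push_cast
    ring
  have hd : dist x y = |t| := by rw [ht', dist_eq_norm]
  have htle : |t| ≤ 1 / 2 := by
    rw [ht']
    have := AddCircle.norm_le_half_period (p := (1 : ℝ)) (x := x - y) one_ne_zero
    simpa using this
  have e3 : ‖2 * Real.sin (2 * Real.pi * t / 2)‖ = 2 * Real.sin (Real.pi * |t|) := by
    have h0 : 0 ≤ Real.sin (Real.pi * |t|) := by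
      apply Real.sin_nonneg_of_nonneg_of_le_pi
      · positivity
      · nlinarith [Real.pi_pos, abs_nonneg t]
    have h1 : 2 * Real.pi * t / 2 = Real.pi * t := by ring
    rw [h1, norm_mul, Real.norm_eq_abs, Real.norm_eq_abs, abs_of_pos (two_pos : (0 : ℝ) < 2)]
    congr 1
    rcases le_or_gt 0 t with h | h
    · rw [abs_of_nonneg h] at h0 ⊢
      exact abs_of_nonneg h0
    · rw [abs_of_neg h] at h0 ⊢
      rw [mul_neg, Real.sin_neg] at h0 ⊢
      rw [abs_of_nonpos (by linarith)]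
  rw [e1, e2, e3, hd]
  constructor
  · have h2 := Real.mul_le_sin (x := Real.pi * |t|) (by positivity)
      (by nlinarith [Real.pi_pos, abs_nonneg t])
    have h3 : 2 / Real.pi * (Real.pi * |t|) = 2 * |t| := by
      field_simp
    nlinarith [abs_nonneg t]
  · have h2 : Real.sin (Real.pi * |t|) ≤ Real.pi * |t| := Real.sin_le (by positivity)
    nlinarith

lemma dist_le_emb (x y : Torus m) : dist x y ≤ ‖emb x - emb y‖ := by
  rw [dist_pi_le_iff (norm_nonneg _)]
  intro i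
  refine (toCircle_bounds (x i) (y i)).1.trans ?_
  exact PiLp.norm_apply_le (emb x - emb y) i

lemma emb_lip : ∃ K : ℝ≥0, LipschitzWith K (emb (m := m)) := by
  have h1 : LipschitzWith (Real.toNNReal (2 * Real.pi))
      (fun x : Torus m => fun i => (AddCircle.toCircle (x i) : ℂ)) := by
    apply LipschitzWith.of_dist_le_mul
    intro x y
    rw [Real.coe_toNNReal _ (by positivity)]
    rw [dist_pi_le_iff (by positivity)]
    intro i
    rw [dist_eq_norm]
    refine (toCircle_bounds (x i) (y i)).2.trans ?_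
    have := dist_le_pi_dist x y i
    gcongr
  exact ⟨_, (PiLp.lipschitzWith_toLp 2 (fun _ : Fin m => ℂ)).comp h1⟩

lemma diff_le_edist (T S : HMap m α) (x : Torus m) : ‖diffMap T S x‖ₑ ≤ edist T S :=
  (le_iSup (fun x => ‖diffMap T S x‖ₑ) x).trans le_self_add

lemma eHolder_le_edist (T S : HMap m α) : eHolderNorm α (diffMap T S) ≤ edist T S :=
  le_add_self

lemma diff_le_of_edist {T S : HMap m α} {δ : ℝ} (hδ : 0 ≤ δ) (h : edist T S ≤ ENNReal.ofReal δ)
    (x : Torus m) : ‖emb (T.1 x) - emb (S.1 x)‖ ≤ δ := by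
  have h1 := (diff_le_edist T S x).trans h
  rw [← ofReal_norm] at h1
  exact (ENNReal.ofReal_le_ofReal_iff hδ).mp h1

lemma holder_of_edist {T S : HMap m α} {δ : ℝ≥0} (h : edist T S ≤ δ) :
    HolderWith δ α (diffMap T S) := by
  have h1 := (eHolder_le_edist T S).trans h
  have hm : MemHolder α (diffMap T S) :=
    eHolderNorm_lt_top.mp (lt_of_le_of_lt h1 ENNReal.coe_lt_top)
  have h2 := hm.holderWith
  refine h2.mono ?_
  rw [← ENNReal.coe_le_coe, hm.coe_nnHolderNorm_eq_eHolderNorm]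
  exact h1

/-- Approximation of elements of `L_α` by uniformly Hölder homeomorphisms. -/
lemma approx {T : HMap m α} (hT : T ∈ Lalpha m α) :
    ∃ C : ℝ, 1 ≤ C ∧ ∀ δ : ℝ, 0 < δ → ∃ S : Torus m ≃ₜ Torus m,
      (∀ x y, dist (S x) (S y) ≤ C * dist x y ^ (α : ℝ)) ∧ ∀ x, dist (S x) (T.1 x) ≤ δ := by
  obtain ⟨CT, hCT⟩ := T.2
  obtain ⟨K, hK⟩ := emb_lip (m := m)
  refine ⟨K * CT + 1, by
    have : (0 : ℝ) ≤ K * CT := by positivity
    linarith, fun δ hδ => ?_⟩
  obtain ⟨S, hS, hTS⟩ := EMetric.mem_closure_iff.mp hT (min (ENNReal.ofReal δ) 1)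
    (lt_min (ENNReal.ofReal_pos.mpr hδ) one_pos)
  have hS' : IsBiLipHomeo S.1 := hS
  obtain ⟨hbij, ⟨L, hL⟩, _⟩ := hS'
  let e : Torus m ≃ Torus m := Equiv.ofBijective S.1 hbij
  have hcont : Continuous e := hL.continuous
  let S' : Torus m ≃ₜ Torus m := Continuous.homeoOfEquivCompactToT2 (f := e) hcont
  have hS'eq : ∀ x, S' x = S.1 x := fun x => rfl
  have hH : HolderWith 1 α (diffMap T S) := by
    apply holder_of_edist
    exact_mod_cast (hTS.trans_le (min_le_right _ _)).le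
  refine ⟨S', fun x y => ?_, fun x => ?_⟩
  · rw [hS'eq, hS'eq]
    refine (dist_le_emb _ _).trans ?_
    have h1 : ‖diffMap T S x - diffMap T S y‖ ≤ 1 * dist x y ^ (α : ℝ) := by
      rw [← dist_eq_norm]
      exact_mod_cast hH.dist_le x y
    have h2 : ‖emb (T.1 x) - emb (T.1 y)‖ ≤ K * (CT * dist x y ^ (α : ℝ)) := by
      rw [← dist_eq_norm]
      refine (hK.dist_le_mul _ _).trans ?_
      gcongr
      exact hCT.dist_le x y
    have e : emb (S.1 x) - emb (S.1 y) = (emb (T.1 x) - emb (T.1 y)) -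
        (diffMap T S x - diffMap T S y) := by
      simp only [diffMap]
      abel
    rw [e]
    refine (norm_sub_le _ _).trans ?_
    nlinarith
  · rw [hS'eq, dist_comm]
    refine (dist_le_emb _ _).trans ?_
    exact diff_le_of_edist hδ.le (hTS.trans_le (min_le_left _ _)).le x

/-- Iterates of good approximations are close. -/
lemma iterate_close (hα : 0 < α) (T : Torus m → Torus m) {C : ℝ} (hC : 0 ≤ C) (k : ℕ)
    (x : Torus m) {η : ℝ} (hη : 0 < η) :
    ∃ δ : ℝ, 0 < δ ∧ ∀ S : Torus m → Torus m,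
      (∀ x y, dist (S x) (S y) ≤ C * dist x y ^ (α : ℝ)) → (∀ x, dist (S x) (T x) ≤ δ) →
      dist (S^[k] x) (T^[k] x) < η := by
  induction k generalizing η with
  | zero => exact ⟨1, one_pos, fun S _ _ => by simpa using hη⟩
  | succ k ih =>
    have hα' : (0 : ℝ) < α := by exact_mod_cast hα
    set η' : ℝ := (η / (2 * (C + 1))) ^ (1 / (α : ℝ)) with hη'
    have hη'0 : 0 < η' := by positivity
    obtain ⟨δ, hδ, h⟩ := ih hη'0
    refine ⟨min δ (η / 3), lt_min hδ (by positivity), fun S hS hST => ?_⟩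
    have h1 := h S hS fun x => (hST x).trans (min_le_left _ _)
    rw [Function.iterate_succ_apply', Function.iterate_succ_apply']
    have h2 := hS (S^[k] x) (T^[k] x)
    have h3 := (hST (T^[k] x)).trans (min_le_right _ _)
    have h4 : dist (S^[k] x) (T^[k] x) ^ (α : ℝ) ≤ η / (2 * (C + 1)) := by
      calc dist (S^[k] x) (T^[k] x) ^ (α : ℝ) ≤ η' ^ (α : ℝ) :=
            Real.rpow_le_rpow dist_nonneg h1.le hα'.le
        _ = η / (2 * (C + 1)) := by
            rw [hη', ← Real.rpow_mul (by positivity), one_div_mul_cancel hα'.ne', Real.rpow_one]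
    have h5 : C * dist (S^[k] x) (T^[k] x) ^ (α : ℝ) ≤ η / 2 := by
      calc C * dist (S^[k] x) (T^[k] x) ^ (α : ℝ) ≤ C * (η / (2 * (C + 1))) := by gcongr
        _ ≤ (C + 1) * (η / (2 * (C + 1))) := by
            apply mul_le_mul_of_nonneg_right (by linarith) (by positivity)
        _ = η / 2 := by field_simp
    have h6 := dist_triangle (S (S^[k] x)) (S (T^[k] x)) (T (T^[k] x))
    linarith

/-- Separated sets of the limit are separated for the approximations. -/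
lemma sep_transfer (hα : 0 < α) (T : Torus m → Torus m) {C : ℝ} (hC : 0 ≤ C) (n : ℕ)
    {ε : ℝ} (hε : 0 < ε) (E : Finset (Torus m)) (hE : IsSep T n ε E) :
    ∃ δ : ℝ, 0 < δ ∧ ∀ S : Torus m → Torus m,
      (∀ x y, dist (S x) (S y) ≤ C * dist x y ^ (α : ℝ)) → (∀ x, dist (S x) (T x) ≤ δ) →
      IsSep S n (ε / 2) E := by
  classical
  choose δ hδ0 hδ using fun (k : ℕ) (x : Torus m) =>
    iterate_close hα T hC k x (η := ε / 4) (by positivity)
  -- a common δ
  obtain ⟨δ0, hδ00, hδ0'⟩ : ∃ δ0 : ℝ, 0 < δ0 ∧ ∀ k ∈ Finset.range n, ∀ x ∈ E, δ0 ≤ δ k x := by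
    rcases (Finset.range n ×ˢ E).eq_empty_or_nonempty with h | h
    · refine ⟨1, one_pos, fun k hk x hx => ?_⟩
      have : (k, x) ∈ Finset.range n ×ˢ E := Finset.mem_product.mpr ⟨hk, hx⟩
      rw [h] at this
      simp at this
    · obtain ⟨p, hp, hp'⟩ := Finset.exists_min_image (Finset.range n ×ˢ E)
        (fun p => δ p.1 p.2) h
      exact ⟨δ p.1 p.2, hδ0 _ _, fun k hk x hx =>
        hp' (k, x) (Finset.mem_product.mpr ⟨hk, hx⟩)⟩
  refine ⟨δ0, hδ00, fun S hS hST x hx y hy hne => ?_⟩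
  obtain ⟨k, hk, hd⟩ := hE x hx y hy hne
  refine ⟨k, hk, ?_⟩
  have h1 := hδ k x S hS fun z => (hST z).trans (hδ0' k (Finset.mem_range.mpr hk) x hx)
  have h2 := hδ k y S hS fun z => (hST z).trans (hδ0' k (Finset.mem_range.mpr hk) y hy)
  have h3 := dist_triangle4 (T^[k] x) (S^[k] x) (S^[k] y) (T^[k] y)
  rw [dist_comm (T^[k] x) (S^[k] x)] at h3
  linarith

/-- the bound for all elements of `L_α` -/
lemma limit_bound (hm : 0 < m) (hα : 0 < α) (hα1 : α < 1) (k : ℕ) {Θ : ℝ}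
    (hΘ1 : (m : ℝ) ≤ Θ)
    (hΘ2 : k * ((1 - (α : ℝ)) * m) + (1 / (α : ℝ) - 1) * ((m - 1 : ℕ) : ℝ) ≤ Θ)
    {T : HMap m α} (hT : T ∈ Lalpha m α) :
    ∃ K : ℝ, 0 ≤ K ∧ ∀ (M : ℕ), 0 < M → ∀ (n : ℕ) (ε : ℝ), 0 < ε →
      2 / (M : ℝ) ≤ ε → ∀ E : Finset (Torus m), IsSep T.1 (n + 1) ε E →
      (E.card : ℝ) ≤ Real.exp (m * Real.log M + k * (K + (1 - (α : ℝ)) * m * Real.log M) +
        (n : ℝ) / (k + 1) * (K + Θ * Real.log M)) := by
  obtain ⟨C, hC, happ⟩ := approx hT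
  obtain ⟨K, hK, hbd⟩ := homeo_bound hm hC (α := (α : ℝ)) (by exact_mod_cast hα)
    (by exact_mod_cast hα1) k hΘ1 hΘ2
  refine ⟨K, hK, fun M hM n ε hε hMε E hE => ?_⟩
  obtain ⟨δ, hδ, htr⟩ := sep_transfer hα T.1 (by linarith : (0 : ℝ) ≤ C) (n + 1) hε E hE
  obtain ⟨S, hS1, hS2⟩ := happ δ hδ
  have hMr : (0 : ℝ) < M := by exact_mod_cast hM
  exact hbd S hS1 M hM n (ε / 2) (by
    have : 1 / (M : ℝ) = (2 / (M : ℝ)) / 2 := by ring
    linarith) E (htr S hS1 hS2)

/-- `h(T, ε)` is small. -/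
lemma hEps_le (hm : 0 < m) (hα : 0 < α) (hα1 : α < 1) (k : ℕ) {Θ : ℝ}
    (hΘ1 : (m : ℝ) ≤ Θ)
    (hΘ2 : k * ((1 - (α : ℝ)) * m) + (1 / (α : ℝ) - 1) * ((m - 1 : ℕ) : ℝ) ≤ Θ)
    {T : HMap m α} (hT : T ∈ Lalpha m α) :
    ∃ K : ℝ, 0 ≤ K ∧ ∀ (M : ℕ), 0 < M → ∀ (ε : ℝ), 0 < ε → 2 / (M : ℝ) ≤ ε →
      hEps T.1 ε ≤ (((K + Θ * Real.log M) / (k + 1) : ℝ) : EReal) := by
  obtain ⟨K, hK, hbd⟩ := limit_bound hm hα hα1 k hΘ1 hΘ2 hT
  refine ⟨K, hK, fun M hM ε hε hMε => ?_⟩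
  set c0 : ℝ := m * Real.log M + k * (K + (1 - (α : ℝ)) * m * Real.log M) with hc0
  set c1 : ℝ := (K + Θ * Real.log M) / (k + 1) with hc1
  have hM1 : (1 : ℝ) ≤ M := by exact_mod_cast hM
  have hΘ0 : 0 ≤ Θ := le_trans (by positivity) hΘ1
  have hlM : 0 ≤ Real.log M := Real.log_nonneg hM1
  have hc10 : 0 ≤ c1 := by positivity
  have hlog : ∀ n : ℕ, 0 < n → ENNReal.log (sNum T.1 n ε) ≤ ((c0 + n * c1 : ℝ) : EReal) := by
    intro n hn
    obtain ⟨n', rfl⟩ : ∃ n', n = n' + 1 := ⟨n - 1, by omega⟩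
    have h1 : sNum T.1 (n' + 1) ε ≤ EReal.exp ((c0 + ((n' + 1 : ℕ) : ℝ) * c1 : ℝ) : EReal) := by
      rw [EReal.exp_coe]
      refine iSup_le fun E => iSup_le fun hE => ?_
      rw [← ENNReal.ofReal_natCast]
      apply ENNReal.ofReal_le_ofReal
      refine (hbd M hM n' ε hε hMε E hE).trans ?_
      apply Real.exp_le_exp.mpr
      have : (n' : ℝ) / (k + 1) * (K + Θ * Real.log M) = n' * c1 := by
        rw [hc1]; ring
      rw [this]
      push_cast
      nlinarith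
    rw [← EReal.log_exp ((c0 + ((n' + 1 : ℕ) : ℝ) * c1 : ℝ) : EReal)]
    exact ENNReal.log_monotone h1
  have hlim : Tendsto (fun n : ℕ => (((c0 + n * c1) / n : ℝ) : EReal)) atTop (𝓝 (c1 : EReal)) := by
    apply (continuous_coe_real_ereal.tendsto c1).comp
    have h1 : Tendsto (fun n : ℕ => c0 / (n : ℝ) + c1) atTop (𝓝 (0 + c1)) :=
      (tendsto_const_div_atTop_nhds_zero_nat c0).add tendsto_const_nhds
    rw [zero_add] at h1
    refine h1.congr' ?_
    filter_upwards [eventually_gt_atTop 0] with n hn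
    have : (0 : ℝ) < n := by exact_mod_cast hn
    field_simp
  calc hEps T.1 ε ≤ limsup (fun n : ℕ => (((c0 + n * c1) / n : ℝ) : EReal)) atTop := by
        refine limsup_le_limsup ?_
        filter_upwards [eventually_gt_atTop 0] with n hn
        have hnr : (0 : ℝ) < n := by exact_mod_cast hn
        rw [EReal.coe_div]
        exact EReal.div_le_div_right_of_nonneg (by exact_mod_cast hnr.le) (hlog n hn)
    _ = c1 := hlim.limsup_eq

lemma mdim_le (hm : 0 < m) (hα : 0 < α) (hα1 : α < 1) (k : ℕ) {Θ : ℝ}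
    (hΘ1 : (m : ℝ) ≤ Θ)
    (hΘ2 : k * ((1 - (α : ℝ)) * m) + (1 / (α : ℝ) - 1) * ((m - 1 : ℕ) : ℝ) ≤ Θ)
    {T : HMap m α} (hT : T ∈ Lalpha m α) :
    upperMdim T.1 ≤ ((Θ / (k + 1) : ℝ) : EReal) := by
  obtain ⟨K, hK, hbd⟩ := hEps_le hm hα hα1 k hΘ1 hΘ2 hT
  have hΘ0 : 0 ≤ Θ := le_trans (by positivity) hΘ1
  set D : ℝ := K + Θ * Real.log 3 with hD
  have hl3 : 0 ≤ Real.log 3 := Real.log_nonneg (by norm_num)
  have hL : Tendsto (fun ε : ℝ => |Real.log ε|) (𝓝[>] 0) atTop :=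
    tendsto_abs_atBot_atTop.comp Real.tendsto_log_nhdsGT_zero
  have hlim : Tendsto (fun ε : ℝ => (((D + Θ * |Real.log ε|) / (k + 1) / |Real.log ε| : ℝ) : EReal))
      (𝓝[>] 0) (𝓝 ((Θ / (k + 1) : ℝ) : EReal)) := by
    apply (continuous_coe_real_ereal.tendsto (Θ / (k + 1))).comp
    have h1 : Tendsto (fun ε : ℝ => (D / (k + 1)) / |Real.log ε| + Θ / (k + 1)) (𝓝[>] 0)
        (𝓝 (0 + Θ / (k + 1))) := (hL.const_div_atTop _).add tendsto_const_nhds
    rw [zero_add] at h1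
    refine h1.congr' ?_
    filter_upwards [hL.eventually_gt_atTop 0] with ε hε
    field_simp
  calc upperMdim T.1 ≤ limsup (fun ε : ℝ =>
        (((D + Θ * |Real.log ε|) / (k + 1) / |Real.log ε| : ℝ) : EReal)) (𝓝[>] 0) := by
        refine limsup_le_limsup ?_
        have h1 : ∀ᶠ ε : ℝ in 𝓝[>] 0, ε ∈ Set.Ioo (0 : ℝ) 1 := Ioo_mem_nhdsGT one_pos
        filter_upwards [h1, hL.eventually_gt_atTop 0] with ε hε hlε
        rw [EReal.coe_div _ (|Real.log ε|)]
        apply EReal.div_le_div_right_of_nonneg (by exact_mod_cast hlε.le)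
        have hM : 0 < ⌈2 / ε⌉₊ := Nat.ceil_pos.mpr (by have := hε.1; positivity)
        have hMr : (0 : ℝ) < (⌈2 / ε⌉₊ : ℝ) := by exact_mod_cast hM
        refine (hbd ⌈2 / ε⌉₊ hM ε hε.1 ?_).trans ?_
        · rw [div_le_iff₀ hMr]
          have := Nat.le_ceil (2 / ε)
          rw [div_le_iff₀ hε.1] at this
          linarith
        · rw [EReal.coe_le_coe_iff]
          have h2 : (⌈2 / ε⌉₊ : ℝ) ≤ 3 / ε := by
            have h3 := (Nat.ceil_lt_add_one (a := 2 / ε) (by have := hε.1; positivity)).le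
            have h4 : 1 ≤ 1 / ε := by
              rw [le_div_iff₀ hε.1]; linarith [hε.2]
            have h5 : 3 / ε = 2 / ε + 1 / ε := by ring
            linarith
          have h3 : Real.log (⌈2 / ε⌉₊ : ℝ) ≤ Real.log 3 + |Real.log ε| := by
            calc Real.log (⌈2 / ε⌉₊ : ℝ) ≤ Real.log (3 / ε) := Real.log_le_log hMr h2
              _ = Real.log 3 - Real.log ε := Real.log_div (by norm_num) hε.1.ne'
              _ ≤ Real.log 3 + |Real.log ε| := by
                  have := neg_abs_le (Real.log ε)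
                  linarith
          apply div_le_div_of_nonneg_right _ (by positivity)
          rw [hD]
          have := mul_le_mul_of_nonneg_left h3 hΘ0
          linarith
    _ = ((Θ / (k + 1) : ℝ) : EReal) := hlim.limsup_eq

/-- All elements of `L_α` have upper metric mean dimension bounded away from `(1 - α) m`. -/
theorem uniform_gap (hm : 2 ≤ m) (h1 : (1 : ℝ) - 1 / m < α) (h2 : α < 1) :
    ∃ θ : ℝ, θ < (1 - (α : ℝ)) * m ∧ ∀ T ∈ Lalpha m α, upperMdim T.1 ≤ (θ : EReal) := by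
  have hmr : (2 : ℝ) ≤ m := by exact_mod_cast hm
  have hm0 : (0 : ℝ) < m := by linarith
  have hα0 : (0 : ℝ) < α := by
    have : (1 : ℝ) / m ≤ 1 / 2 := one_div_le_one_div_of_le (by norm_num) hmr
    linarith
  have hα1 : (α : ℝ) < 1 := by exact_mod_cast h2
  set a : ℝ := (1 - (α : ℝ)) * m with ha
  have ha0 : 0 < a := mul_pos (by linarith) hm0
  set b : ℝ := (1 / (α : ℝ) - 1) * ((m - 1 : ℕ) : ℝ) with hb
  have hcast : ((m - 1 : ℕ) : ℝ) = m - 1 := by
    rw [Nat.cast_sub (by omega)]; simp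
  have hba : b < a := by
    rw [hb, ha, hcast]
    have e : (1 / (α : ℝ) - 1) * (m - 1) = ((1 - α) * (m - 1)) / α := by
      field_simp
    rw [e, div_lt_iff₀ hα0]
    have h3 : (m : ℝ) - 1 < m * α := by
      have : (1 - 1 / (m : ℝ)) * m < α * m := mul_lt_mul_of_pos_right h1 hm0
      have e2 : (1 - 1 / (m : ℝ)) * m = m - 1 := by field_simp
      linarith
    have h4 : 0 < 1 - (α : ℝ) := by linarith
    nlinarith
  set k : ℕ := ⌈1 / (1 - (α : ℝ))⌉₊ with hk
  have hk1 : 1 < ((k : ℝ) + 1) * (1 - (α : ℝ)) := by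
    have h4 : 0 < 1 - (α : ℝ) := by linarith
    have : 1 / (1 - (α : ℝ)) ≤ k := Nat.le_ceil _
    rw [div_le_iff₀ h4] at this
    linarith
  set Θ : ℝ := max (m : ℝ) (k * a + b) with hΘ
  refine ⟨Θ / (k + 1), ?_, fun T hT => mdim_le (by omega) (by exact_mod_cast hα0) h2 k
    (le_max_left _ _) (le_max_right _ _) hT⟩
  rw [div_lt_iff₀ (by positivity), hΘ, max_lt_iff]
  constructor
  · have e : a * (k + 1) = ((k : ℝ) + 1) * (1 - α) * m := by rw [ha]; ring
    rw [e]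
    nlinarith
  · nlinarith

end Pool.Agent.N219.HL
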